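import Mathlib

/-!
# An embedding in a completion extends to a completion

After `N816/PQ/Emb.lean`, with the completion of a number field in place of `ℚ_p`.
-/

set_option autoImplicit false
set_option linter.all false

open IsDedekindDomain WithZero Filter Topology MonoidWithZeroHom NumberField

namespace Pool.Agent.H25P.Emb

section

variable {K M : Type} [Field K] [NumberField K] [Field M] [NumberField M]
  {u : HeightOneSpectrum (𝓞 K)} (φ : M →+* u.adicCompletion K)

/-- The value of the image. -/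
noncomputable abbrev vv (u : HeightOneSpectrum (𝓞 K)) (x : u.adicCompletion K) :
    WithZero (Multiplicative ℤ) := Valued.v x

theorem vx (x : K) : vv u (algebraMap K (u.adicCompletion K) x) = u.valuation K x :=
  HeightOneSpectrum.valuedAdicCompletion_eq_valuation' u x

theorem int_le (x : 𝓞 M) : vv u (φ (algebraMap (𝓞 M) M x)) ≤ 1 := by
  have h3 : IsIntegral (Valued.v (R := u.adicCompletion K)
      (Γ₀ := WithZero (Multiplicative ℤ))).integer (φ (algebraMap (𝓞 M) M x)) := by
    obtain ⟨p, hp, hpx⟩ : IsIntegral ℤ (algebraMap (𝓞 M) M x) := x.2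
    refine ⟨p.map (Int.castRingHom _), hp.map _, ?_⟩
    have h4 := congrArg φ hpx
    rw [Polynomial.hom_eval₂, map_zero] at h4
    rw [Polynomial.eval₂_map]
    have h5 : (algebraMap (Valued.v (R := u.adicCompletion K)
      (Γ₀ := WithZero (Multiplicative ℤ))).integer (u.adicCompletion K)).comp
        (Int.castRingHom _) = φ.comp (algebraMap ℤ M) := RingHom.ext_int _ _
    rw [h5]
    exact h4
  exact (Valuation.integer.integers (Valued.v (R := u.adicCompletion K)
      (Γ₀ := WithZero (Multiplicative ℤ)))).mem_of_integral h3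

/-- The prime ideal. -/
noncomputable def pI : Ideal (𝓞 M) where
  carrier := {x | vv u (φ (algebraMap (𝓞 M) M x)) < 1}
  add_mem' := by
    intro a b ha hb
    show vv u (φ (algebraMap (𝓞 M) M (a + b))) < 1
    rw [map_add, map_add]
    exact Valuation.map_add_lt _ ha hb
  zero_mem' := by
    show vv u (φ (algebraMap (𝓞 M) M 0)) < 1
    rw [map_zero, map_zero, vv, map_zero]
    exact zero_lt_one
  smul_mem' := by
    intro a b hb
    show vv u (φ (algebraMap (𝓞 M) M (a * b))) < 1
    rw [map_mul, map_mul, vv, map_mul]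
    exact lt_of_le_of_lt (mul_le_mul' (int_le φ a) le_rfl) (by rw [one_mul]; exact hb)

theorem mem_pI (x : 𝓞 M) : x ∈ pI φ ↔ vv u (φ (algebraMap (𝓞 M) M x)) < 1 := Iff.rfl

theorem pI_prime : (pI φ).IsPrime := by
  refine ⟨?_, ?_⟩
  · intro h
    have h1 : (1 : 𝓞 M) ∈ pI φ := by rw [h]; trivial
    rw [mem_pI, map_one, map_one, vv, map_one] at h1
    exact lt_irrefl _ h1
  · intro a b hab
    rw [mem_pI, map_mul, map_mul, vv, map_mul] at hab
    rw [mem_pI, mem_pI]
    by_contra hcon
    push Not at hcon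
    have h1 := le_antisymm (int_le φ a) hcon.1
    have h2 := le_antisymm (int_le φ b) hcon.2
    rw [vv] at h1 h2
    rw [h1, h2, one_mul] at hab
    exact lt_irrefl _ hab

theorem exists_p (u : HeightOneSpectrum (𝓞 K)) : ∃ p : ℕ, p ≠ 0 ∧ (p : 𝓞 K) ∈ u.asIdeal := by
  refine ⟨Ideal.absNorm u.asIdeal, ?_, Ideal.absNorm_mem _⟩
  rw [Ne, Ideal.absNorm_eq_zero_iff]
  exact u.ne_bot

theorem nat_mem (p : ℕ) : (p : 𝓞 M) ∈ pI φ ↔ (p : 𝓞 K) ∈ u.asIdeal := by
  rw [mem_pI, map_natCast, map_natCast]
  have e : ((p : ℕ) : u.adicCompletion K) = algebraMap K (u.adicCompletion K) (p : K) := by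
    rw [map_natCast]
  rw [e, vx]
  have e2 : ((p : ℕ) : K) = algebraMap (𝓞 K) K (p : 𝓞 K) := by rw [map_natCast]
  rw [e2, HeightOneSpectrum.valuation_lt_one_iff_mem]

/-- The place. -/
noncomputable def pl : HeightOneSpectrum (𝓞 M) where
  asIdeal := pI φ
  isPrime := pI_prime φ
  ne_bot := by
    intro h0
    obtain ⟨p, hp, hpu⟩ := exists_p u
    have h1 := (nat_mem φ p).2 hpu
    rw [h0, Ideal.mem_bot] at h1
    exact hp (by exact_mod_cast h1)

theorem le_of (x : M) (hx : (pl φ).valuation M x ≤ 1) : vv u (φ x) ≤ 1 := by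
  obtain ⟨n, d, hnd⟩ := (pl φ).exists_primeCompl_mul_eq_of_integer x hx
  have hd : vv u (φ (algebraMap (𝓞 M) M d)) = 1 := by
    refine le_antisymm (int_le φ _) (not_lt.1 fun h => ?_)
    exact d.2 ((mem_pI φ _).2 h)
  have h1 := congrArg (fun y => vv u (φ y)) hnd
  simp only [map_mul, vv] at h1 hd
  rw [hd, mul_one] at h1
  rw [vv, h1]
  exact int_le φ n

theorem lt_of (x : M) (hx : (pl φ).valuation M x < 1) : vv u (φ x) < 1 := by
  obtain ⟨n, d, hnd⟩ := (pl φ).exists_primeCompl_mul_eq_of_integer x hx.le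
  have hd : vv u (φ (algebraMap (𝓞 M) M d)) = 1 := by
    refine le_antisymm (int_le φ _) (not_lt.1 fun h => ?_)
    exact d.2 ((mem_pI φ _).2 h)
  have h1 := congrArg (fun y => vv u (φ y)) hnd
  simp only [map_mul, vv] at h1 hd
  rw [hd, mul_one] at h1
  rw [vv, h1]
  change vv u (φ (algebraMap (𝓞 M) M n)) < 1
  rw [← mem_pI]
  have h2 : (pl φ).valuation M (algebraMap (𝓞 M) M n) < 1 := by
    rw [← hnd, map_mul]
    exact mul_lt_one_of_lt_of_le hx ((pl φ).valuation_le_one _)
  exact ((pl φ).valuation_lt_one_iff_mem n).1 h2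

theorem lt_iff (x : M) : vv u (φ x) < 1 ↔ (pl φ).valuation M x < 1 := by
  refine ⟨fun h => ?_, lt_of φ x⟩
  by_contra hcon
  rw [not_lt] at hcon
  have hx0 : x ≠ 0 := by
    rintro rfl
    rw [map_zero] at hcon
    exact absurd hcon (by simp)
  have h1 : (pl φ).valuation M x⁻¹ ≤ 1 := by
    rw [map_inv₀]
    exact inv_le_one_of_one_le₀ hcon
  have h2 := le_of φ _ h1
  rw [map_inv₀, vv, map_inv₀] at h2
  have h3 : vv u (φ x) ≠ 0 := by
    rw [vv, Valuation.ne_zero_iff]
    exact (map_ne_zero φ).2 hx0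
  have h4 : 1 ≤ vv u (φ x) := by
    rwa [inv_le_one₀ (zero_lt_iff.2 h3)] at h2
  exact absurd h (not_lt.2 h4)

theorem lt_iff' (x y : M) : vv u (φ x) < vv u (φ y) ↔
    (pl φ).valuation M x < (pl φ).valuation M y := by
  by_cases hy : y = 0
  · subst hy
    simp only [vv, map_zero]
    constructor <;> intro h <;> exact absurd h (by simp)
  · have h1 : vv u (φ y) ≠ 0 := by
      rw [vv, Valuation.ne_zero_iff]
      exact (map_ne_zero φ).2 hy
    have h2 : (pl φ).valuation M y ≠ 0 := (Valuation.ne_zero_iff _).2 hy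
    rw [← div_lt_one₀ (zero_lt_iff.2 h1), ← div_lt_one₀ (zero_lt_iff.2 h2)]
    have e : vv u (φ x) / vv u (φ y) = vv u (φ (x / y)) := by
      simp only [vv]
      rw [← map_div₀, ← map_div₀]
    have e2 : (pl φ).valuation M x / (pl φ).valuation M y = (pl φ).valuation M (x / y) := by
      rw [← map_div₀]
    rw [e, e2]
    exact lt_iff φ _

/-- The field with the topology of the valuation. -/
noncomputable def wf : WithVal ((pl φ).valuation M) →+* u.adicCompletion K :=
  φ.comp (WithVal.equiv ((pl φ).valuation M)).toRingHom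

theorem wf_cont : Continuous (wf φ) := by
  have key : ContinuousAt (wf φ).toAddMonoidHom 0 := by
    show Tendsto (wf φ) (𝓝 0) (𝓝 (wf φ 0))
    rw [map_zero]
    intro s hs
    obtain ⟨γ, hγ⟩ := Valued.mem_nhds_zero.1 hs
    have hg : ValueGroup₀.embedding γ.1 ≠ 0 := by
      rw [Ne, map_eq_zero]
      exact γ.ne_zero
    obtain ⟨n, hn, -⟩ := exists_exp_neg_natCast_lt_and_lt hg hg
    obtain ⟨π, hπ⟩ := (pl φ).valuation_exists_uniformizer M
    have hπ0 : π ≠ 0 := by
      rintro rfl
      rw [map_zero] at hπ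
      exact exp_ne_zero hπ.symm
    have hπ1 : vv u (φ π) < 1 := lt_of φ π (by rw [hπ, ← exp_zero, exp_lt_exp]; norm_num)
    have hπ2 : vv u (φ π) ≤ exp (-1 : ℤ) := by
      have h0 : vv u (φ π) ≠ 0 := by
        rw [vv, Valuation.ne_zero_iff]
        exact (map_ne_zero φ).2 hπ0
      have h6 : exp (log (vv u (φ π))) = vv u (φ π) := exp_log h0
      rw [← h6, ← exp_zero, exp_lt_exp] at hπ1
      rw [← h6, exp_le_exp]
      omega
    have hne : (Valued.v (R := WithVal ((pl φ).valuation M))).restrict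
        (WithVal.toVal ((pl φ).valuation M) (π ^ n)) ≠ 0 := by
      rw [Valuation.ne_zero_iff]
      intro h
      exact pow_ne_zero n hπ0 ((WithVal.toVal_eq_zero _ _).1 h)
    rw [Filter.mem_map, Valued.mem_nhds_zero]
    refine ⟨Units.mk0 _ hne, fun x hx => hγ ?_⟩
    have hx' : Valued.v x < Valued.v (WithVal.toVal ((pl φ).valuation M) (π ^ n)) :=
      (Valuation.restrict_lt_iff _).1 hx
    show (Valued.v (R := u.adicCompletion K)).restrict (wf φ x) < γ
    rw [Valuation.restrict_lt_iff_lt_embedding]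
    refine lt_of_le_of_lt ?_ hn
    have hx2 : (pl φ).valuation M x.ofVal < (pl φ).valuation M (π ^ n) := hx'
    have h3 := ((lt_iff' φ _ _).2 hx2).le
    show vv u (φ x.ofVal) ≤ _
    refine h3.trans ?_
    rw [map_pow, vv, map_pow]
    calc (Valued.v (φ π)) ^ n ≤ exp (-1 : ℤ) ^ n := pow_le_pow_left₀ zero_le hπ2 n
      _ = exp (-(n : ℤ)) := by
        rw [← exp_nsmul]
        congr 1
        simp
  exact continuous_of_continuousAt_zero (wf φ).toAddMonoidHom key

/-- The embedding extends to the completion. -/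
theorem emb : ∃ j : (pl φ).adicCompletion M →+* u.adicCompletion K,
    ∀ x : M, j (algebraMap M ((pl φ).adicCompletion M) x) = φ x := by
  have hc := wf_cont φ
  refine ⟨(UniformSpace.Completion.extensionHom (wf φ) hc).comp
    (HeightOneSpectrum.adicCompletion.equiv M (pl φ)).toRingHom, fun x => ?_⟩
  exact UniformSpace.Completion.extensionHom_coe (wf φ) hc (WithVal.toVal _ x)

end

section gal

variable {K M : Type} [Field K] [NumberField K] [Field M] [NumberField M] [Algebra K M]
  {u : HeightOneSpectrum (𝓞 K)} (φ : M →ₐ[K] u.adicCompletion K)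

/-- An automorphism which fixes the place of an embedding in a completion of `K` is the
identity. -/
theorem eq_one (τ : M ≃ₐ[K] M)
    (hτ : ∀ x : M, (pl φ.toRingHom).valuation M (τ x) = (pl φ.toRingHom).valuation M x) :
    τ = 1 := by
  ext x
  rw [AlgEquiv.one_apply]
  by_contra hne
  have hd : φ (τ x - x) ≠ 0 := (map_ne_zero φ).2 (sub_ne_zero.2 hne)
  have hv : vv u (φ (τ x - x)) ≠ 0 := by
    rw [vv, Valuation.ne_zero_iff]
    exact hd
  -- an element of `K` close to `φ x`
  obtain ⟨k, hk⟩ : ∃ k : K, vv u (φ x - algebraMap K (u.adicCompletion K) k) <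
      vv u (φ (τ x - x)) := by
    have hden := HeightOneSpectrum.denseRange_algebraMap (K := K) (v := u)
    have hne' : (Valued.v (R := u.adicCompletion K)
        (Γ₀ := WithZero (Multiplicative ℤ))).restrict (φ (τ x - x)) ≠ 0 := by
      rw [Valuation.ne_zero_iff]
      exact hd
    have hmem : {y : u.adicCompletion K | (Valued.v (R := u.adicCompletion K)
        (Γ₀ := WithZero (Multiplicative ℤ))).restrict (y - φ x) < Units.mk0 _ hne'} ∈
        𝓝 (φ x) := Valued.mem_nhds.2 ⟨Units.mk0 _ hne', fun y hy => hy⟩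
    obtain ⟨y, ⟨k, rfl⟩, hy⟩ := hden.inter_nhds_nonempty hmem
    refine ⟨k, ?_⟩
    have h2 := (Valuation.restrict_lt_iff (Valued.v (R := u.adicCompletion K)
        (Γ₀ := WithZero (Multiplicative ℤ)))).1 hy
    rw [Valuation.map_sub_swap] at h2
    exact h2
  have e : ∀ y : M, φ y - algebraMap K (u.adicCompletion K) k = φ.toRingHom (y - algebraMap K M k) := by
    intro y
    show _ = φ (y - algebraMap K M k)
    rw [map_sub, φ.commutes]
  have h1 : vv u (φ (τ x) - algebraMap K (u.adicCompletion K) k) < vv u (φ (τ x - x)) := by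
    have h2 : vv u (φ.toRingHom (x - algebraMap K M k)) < vv u (φ.toRingHom (τ x - x)) := by
      rw [← e]
      exact hk
    rw [lt_iff' φ.toRingHom, ← hτ, map_sub, τ.commutes, ← lt_iff' φ.toRingHom, ← e] at h2
    exact h2
  have h3 : φ (τ x - x) = (φ (τ x) - algebraMap K (u.adicCompletion K) k) -
      (φ x - algebraMap K (u.adicCompletion K) k) := by
    rw [map_sub]
    ring
  have h4 : vv u (φ (τ x - x)) < vv u (φ (τ x - x)) := by
    conv_lhs => rw [h3]
    exact lt_of_le_of_lt (Valuation.map_sub _ _ _) (max_lt h1 hk)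
  exact lt_irrefl _ h4

end gal

end Pool.Agent.H25P.Emb
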