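import Pool.Agent.H25P.Base
import Pool.Agent.H25P.Emb

/-!
# The top of the descent
-/

set_option autoImplicit false
set_option linter.all false

open Polynomial IsDedekindDomain NumberField
open scoped Classical IntermediateField

namespace Pool.Agent.H25P

open Pool.Agent.N874.PP (Ev Sq1 U0)
open Pool.Agent.N783.PQ (LocIm)
open Pool.Agent.N874.JM (LocF)
open Pool.Agent.N874.PM (Lies)
open Pool.Agent.N783.PF
open Pool.Agent.N922.PQ (Gen SplitMod)

/-- The polynomial over the ring of integers of the extension. -/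
noncomputable abbrev fM {K : Type} [Field K] [NumberField K] (M : Type) [Field M] [NumberField M]
    [Algebra K M] (f : (𝓞 K)[X]) : (𝓞 M)[X] := f.map (algebraMap (𝓞 K) (𝓞 M))

section res

variable {K M : Type} [Field K] [NumberField K] [Field M] [NumberField M] [Algebra K M]

theorem fF_fM (f : (𝓞 K)[X]) : fF (fM M f) = (fF f).map (algebraMap K M) := by
  unfold fF fM
  rw [Polynomial.map_map, Polynomial.map_map]
  rfl

/-- Approximation of an element of `K` by an element of the ring of integers. -/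
theorem approx (v : HeightOneSpectrum (𝓞 K)) {s : K} (hs : v.valuation K s ≤ 1) :
    ∃ b : 𝓞 K, v.valuation K (s - b) < 1 := by
  obtain ⟨n, d, hnd⟩ := v.exists_primeCompl_mul_eq_of_integer s hs
  haveI := v.isMaximal
  have hd : (d : 𝓞 K) ∉ v.asIdeal := d.2
  obtain ⟨e, he⟩ := Ideal.Quotient.exists_inv (I := v.asIdeal)
    (a := (Ideal.Quotient.mk v.asIdeal (d : 𝓞 K)))
    (by rwa [Ne, Ideal.Quotient.eq_zero_iff_mem])
  obtain ⟨e, rfl⟩ := Ideal.Quotient.mk_surjective e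
  rw [← map_mul, ← map_one (Ideal.Quotient.mk v.asIdeal), Ideal.Quotient.eq] at he
  refine ⟨n * e, ?_⟩
  have e1 : s - ((n * e : 𝓞 K) : K) = - (s * algebraMap (𝓞 K) K ((d : 𝓞 K) * e - 1)) := by
    have h2 : ((n * e : 𝓞 K) : K) = algebraMap (𝓞 K) K n * algebraMap (𝓞 K) K e := by
      rw [← map_mul]
    rw [h2, ← hnd, map_sub, map_mul, map_one]
    ring
  rw [e1, Valuation.map_neg, map_mul]
  refine lt_of_le_of_lt (mul_le_mul' hs le_rfl) ?_
  rw [one_mul, HeightOneSpectrum.valuation_lt_one_iff_mem]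
  exact he

/-- Irreducibility in the residue field at a place where `K` is dense in `M`. -/
theorem irr_up {v : HeightOneSpectrum (𝓞 K)} {w : HeightOneSpectrum (𝓞 M)}
    (hv : ∀ x : K, w.valuation M (algebraMap K M x) = v.valuation K x)
    (hd : ∀ s : M, s ≠ 0 → ∃ s₀ : K, w.valuation M (s - algebraMap K M s₀) < w.valuation M s)
    {p : (𝓞 K)[X]} (hp : Irreducible (rd v.asIdeal p)) :
    Irreducible ((fM M p).map (Ideal.Quotient.mk w.asIdeal)) := by
  have hmem : ∀ a : 𝓞 K, algebraMap (𝓞 K) (𝓞 M) a ∈ w.asIdeal ↔ a ∈ v.asIdeal := by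
    intro a
    rw [← HeightOneSpectrum.valuation_lt_one_iff_mem (K := M),
      ← HeightOneSpectrum.valuation_lt_one_iff_mem (K := K), ← hv]
    rfl
  have hsur : ∀ a : 𝓞 M, ∃ b : 𝓞 K, a - algebraMap (𝓞 K) (𝓞 M) b ∈ w.asIdeal := by
    intro a
    by_cases ha : a = 0
    · exact ⟨0, by rw [ha, map_zero, sub_zero]; exact Ideal.zero_mem _⟩
    · have ha' : (a : M) ≠ 0 := fun h => ha (by exact_mod_cast h)
      obtain ⟨s₀, hs₀⟩ := hd a ha'
      have ha1 : w.valuation M (a : M) ≤ 1 := w.valuation_le_one a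
      have h1 : v.valuation K s₀ ≤ 1 := by
        rw [← hv]
        have e : algebraMap K M s₀ = (a : M) - ((a : M) - algebraMap K M s₀) := by ring
        rw [e]
        exact (Valuation.map_sub _ _ _).trans (max_le ha1 (hs₀.le.trans ha1))
      obtain ⟨b, hb⟩ := approx v h1
      refine ⟨b, ?_⟩
      rw [← HeightOneSpectrum.valuation_lt_one_iff_mem (K := M)]
      have e : algebraMap (𝓞 M) M (a - algebraMap (𝓞 K) (𝓞 M) b) =
          ((a : M) - algebraMap K M s₀) + algebraMap K M (s₀ - b) := by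
        have e2 : algebraMap (𝓞 M) M (algebraMap (𝓞 K) (𝓞 M) b) = algebraMap K M (b : K) := rfl
        rw [map_sub, e2, map_sub]
        ring
      change w.valuation M (algebraMap (𝓞 M) M (a - algebraMap (𝓞 K) (𝓞 M) b)) < 1
      rw [e]
      refine lt_of_le_of_lt (Valuation.map_add _ _ _) (max_lt (lt_of_lt_of_le hs₀ ha1) ?_)
      rw [hv]
      exact hb
  -- the isomorphism of the residue fields
  let κ : 𝓞 K ⧸ v.asIdeal →+* 𝓞 M ⧸ w.asIdeal :=
    Ideal.quotientMap w.asIdeal (algebraMap (𝓞 K) (𝓞 M)) (fun a ha => (hmem a).2 ha)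
  have hκ : ∀ a : 𝓞 K, κ (Ideal.Quotient.mk _ a) = Ideal.Quotient.mk _ (algebraMap (𝓞 K) (𝓞 M) a) :=
    fun a => Ideal.quotientMap_mk
  have hinj : Function.Injective κ := by
    rw [injective_iff_map_eq_zero]
    intro x hx
    obtain ⟨a, rfl⟩ := Ideal.Quotient.mk_surjective x
    rw [hκ, Ideal.Quotient.eq_zero_iff_mem, hmem] at hx
    rwa [Ideal.Quotient.eq_zero_iff_mem]
  have hsurj : Function.Surjective κ := by
    intro y
    obtain ⟨a, rfl⟩ := Ideal.Quotient.mk_surjective y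
    obtain ⟨b, hb⟩ := hsur a
    refine ⟨Ideal.Quotient.mk _ b, ?_⟩
    rw [hκ]
    exact (Ideal.Quotient.eq.2 hb).symm
  let κ' : 𝓞 K ⧸ v.asIdeal ≃+* 𝓞 M ⧸ w.asIdeal := RingEquiv.ofBijective κ ⟨hinj, hsurj⟩
  have e : (fM M p).map (Ideal.Quotient.mk w.asIdeal) = Polynomial.mapEquiv κ' (rd v.asIdeal p) := by
    rw [Polynomial.mapEquiv_apply]
    unfold rd fM
    rw [Polynomial.map_map, Polynomial.map_map]
    congr 1
  rw [e]
  exact (MulEquiv.irreducible_iff (Polynomial.mapEquiv κ').toMulEquiv).2 hp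

end res

theorem mod8 {S J : Finset ℕ} (hJS : J ⊆ S) (h : ∀ q ∈ S, q % 8 = 1) : Dp J % 8 = 1 := by
  have : ∀ T : Finset ℕ, T ⊆ S → (∏ q ∈ T, q) % 8 = 1 := by
    intro T
    induction T using Finset.induction_on with
    | empty => intro _; rfl
    | insert a T ha ih =>
      intro hT
      rw [Finset.prod_insert ha, Nat.mul_mod, ih fun x hx => hT (Finset.mem_insert_of_mem hx),
        h a (hT (Finset.mem_insert_self _ _))]
  exact this J hJS

section top

variable {K L M Ω : Type} [Field K] [NumberField K] [Field L] [NumberField L] [Algebra K L]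
  [Field M] [NumberField M] [Algebra K M] [Field Ω] [NumberField Ω] [Algebra K Ω] [Algebra L Ω]
  [Algebra M Ω] [IsScalarTower K M Ω] [IsScalarTower K L Ω]
  {g W : ℕ} {f : (𝓞 K)[X]} {S J : Finset ℕ} {𝔮 : ℕ → Ideal (𝓞 K)} {r P : ℕ → (𝓞 K)[X]}
  {m : ℤ[X]} {δ : ℤ} {θ : L} {γ : M}

theorem der_eq : aeval (algebraMap L Ω θ) (derivative (fF (fM M f))) =
    algebraMap L Ω (aeval θ (derivative (fF f))) := by
  rw [fF_fM, derivative_map, aeval_map_algebraMap, aeval_algebraMap_apply]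

theorem sq_up {𝔓' : HeightOneSpectrum (𝓞 Ω)} {𝔓 : HeightOneSpectrum (𝓞 L)}
    (hv : ∀ x : L, 𝔓'.valuation Ω (algebraMap L Ω x) = 𝔓.valuation L x) {x : L}
    (h : Sq1 𝔓 x) : Sq1 𝔓' (algebraMap L Ω x) := by
  obtain ⟨s, hs⟩ := h
  refine ⟨algebraMap L Ω s, ?_⟩
  rw [← map_pow, ← map_sub, hv, hv]
  exact hs

/-- The conditions over `Ω`. -/
theorem top (H : Setup g W f S J 𝔮 r P m δ) (hM : Gen K γ m δ)
    (hΩ : Gen L (algebraMap M Ω γ) m δ) (hG : IsGen g f θ)
    (hGM : IsGen g (fM M f) (algebraMap L Ω θ))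
    (g2 : ∀ h : M[X], aeval (algebraMap L Ω θ) h = 0 → (fF f).map (algebraMap K M) ∣ h)
    {h : M[X]}
    (hloc : ∀ w : HeightOneSpectrum (𝓞 M),
      LocF (w.adicCompletion M) (fF ((fM M f).scaleRoots ((Dp J : ℕ) : 𝓞 M))) h)
    (hreal : ∀ σ : M →+* ℝ, LocIm ℝ ((fF ((fM M f).scaleRoots ((Dp J : ℕ) : 𝓞 M))).map σ)
      (h.map σ))
    (hne : aeval (((Dp J : ℕ) : Ω) * algebraMap L Ω θ) h ≠ 0) :
    Cnd f W J 𝔮 M (algebraMap L Ω θ) (algebraMap L Ω (aeval θ (derivative (fF f))))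
      (aeval (((Dp J : ℕ) : Ω) * algebraMap L Ω θ) h) := by
  have hD0 : Dp J ≠ 0 := by
    rw [Dp, Finset.prod_ne_zero_iff]
    exact fun q hq => (H.prm (H.sub hq)).ne_zero
  have hD8 : Dp J % 8 = 1 := mod8 H.sub fun q hq => (H.good q hq).2.2.2.1
  have hcomp : ∀ t : M[X], aeval (algebraMap L Ω θ) t =
      aeval (((Dp J : ℕ) : Ω) * algebraMap L Ω θ) h →
      (fF f).map (algebraMap K M) ∣ h.comp (C ((Dp J : ℕ) : M) * X) - t := by
    intro t ht
    apply g2
    rw [map_sub, aeval_comp, map_mul, aeval_C, aeval_X, map_natCast, ht, sub_self]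
  refine ⟨fun 𝔓 h1 h2 h3 => ?_, fun q hq 𝔓 h1 h3 => ?_, fun w hw φ t ht => ?_, fun τ t ht => ?_⟩
  · obtain ⟨w, w1, w2, w3⟩ := p_lie M Ω 𝔓
    have hL : Lies (M := M) (Ω := Ω) w 𝔓 := ⟨fun x => (w3 x).1, fun x => (w3 x).2⟩
    have hnat : ∀ n : ℕ, (n : 𝓞 Ω) ∉ 𝔓.asIdeal → (n : 𝓞 M) ∉ w.asIdeal := by
      intro n hn hc
      apply hn
      have := (w2 _).1 hc
      rwa [map_natCast] at this
    have hDw : ((Dp J : ℕ) : 𝓞 M) ∉ w.asIdeal := by
      intro hd
      rw [Dp, Nat.cast_prod] at hd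
      haveI := w.isPrime
      obtain ⟨q, hq, hqw⟩ := (Ideal.IsPrime.prod_mem_iff).1 hd
      exact hnat q (h2 q hq) hqw
    refine Pool.Agent.N78.PF.ev_unit hGM hL (H.not2 (hnat W h1)) hDw h ?_ (hloc w) hne
    rw [der_eq]
    exact h3
  · -- the primes over `𝔮 q`
    have hqS := H.sub hq
    have hqm := ov_nat h1 (H.qmem hqS)
    have hWn := H.notW hqS hqm
    obtain ⟨w, w1, w2, w3⟩ := p_lie M Ω 𝔓
    have hL : Lies (M := M) (Ω := Ω) w 𝔓 := ⟨fun x => (w3 x).1, fun x => (w3 x).2⟩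
    have hqw : (q : 𝓞 M) ∈ w.asIdeal := by
      rw [w2, map_natCast]
      exact hqm
    have hWw : (W : 𝓞 M) ∉ w.asIdeal := H.notW hqS hqw
    -- the places of `K` and of `L`
    obtain ⟨v, hv⟩ := (Pool.Agent.N362.PQ.ur K M (𝓞 K) (𝓞 M) γ m δ hM).1 w (H.notd hWw)
    obtain ⟨𝔓₀, hv₀⟩ := down H hΩ 𝔓 hWn
    have hv1 : 𝔓₀.valuation L θ = 1 := by rw [← hv₀]; exact h3
    have ho₀ := (ov_down hv₀ (𝔮 q)).1 h1
    have hdw : ∀ s : M, s ≠ 0 → ∃ s₀ : K, w.valuation M (s - algebraMap K M s₀) <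
        w.valuation M s := by
      intro s hs
      refine Pool.Agent.N296.PQ.spd K M (𝓞 M) γ m δ hM (q : ℤ)
        (Nat.prime_iff_prime_int.1 (H.prm hqS)) (H.spl q hqS) w ?_ (H.notd hWw) s hs
      unfold Pool.Agent.N922.PQ.Ov
      rw [Int.cast_natCast]
      exact hqw
    -- `v = 𝔮 q`
    have hqv : 𝔮 q = v.asIdeal := by
      have hmax : (𝔮 q).IsMaximal := (H.qpr hqS).isMaximal (H.qne hqS)
      refine hmax.eq_of_le v.isPrime.ne_top fun a ha => ?_
      have h5 := h1 a ha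
      rw [← HeightOneSpectrum.valuation_lt_one_iff_mem (K := K), ← hv]
      have e6 : algebraMap (𝓞 M) (𝓞 Ω) (algebraMap (𝓞 K) (𝓞 M) a) = algebraMap (𝓞 K) (𝓞 Ω) a := by
        apply NumberField.RingOfIntegers.ext
        exact (IsScalarTower.algebraMap_apply K M Ω (a : K)).symm
      have h6 : algebraMap (𝓞 K) (𝓞 M) a ∈ w.asIdeal := by
        rw [w2, e6]
        exact h5
      exact (HeightOneSpectrum.valuation_lt_one_iff_mem (K := M) w _).2 h6
    obtain ⟨a1, a2, a3, a4, a5, a6, a7, a8, a9, a10, a11, a12, a13, a14, a15⟩ := H.good q hqS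
    haveI : Finite (𝓞 M ⧸ w.asIdeal) := Ideal.finiteQuotientOfFreeOfNeBot _ w.ne_bot
    haveI : Finite (𝓞 Ω ⧸ 𝔓.asIdeal) := Ideal.finiteQuotientOfFreeOfNeBot _ 𝔓.ne_bot
    obtain ⟨D', hD'⟩ : ∃ D' : ℕ, D' = ∏ p ∈ J.erase q, p := ⟨_, rfl⟩
    have hDD : Dp J = q * D' := by
      rw [hD']
      exact (Finset.mul_prod_erase J (fun P => P) hq).symm
    have hD'm : ∀ {F : Type} [Field F] [NumberField F] {u : HeightOneSpectrum (𝓞 F)},
        (q : 𝓞 F) ∈ u.asIdeal → (D' : 𝓞 F) ∉ u.asIdeal := by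
      intro F _ _ u hqu hd
      rw [hD', Nat.cast_prod] at hd
      haveI := u.isPrime
      obtain ⟨p, hp, hpm⟩ := (Ideal.IsPrime.prod_mem_iff).1 hd
      have hp' := Finset.mem_erase.1 hp
      exact hp'.1 (prime_unique (H.prm (H.sub hp'.2)) a1 hpm hqu)
    have v2 : w.valuation M 2 = 1 := by
      have := Pool.Agent.N78.PF.val_one (w := w) (a := 2) (H.not2 hWw)
      rwa [Pool.Agent.N78.PF.two_cast] at this
    have vD' : w.valuation M (D' : M) = 1 := nat_val_one.2 (hD'm hqw)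
    obtain ⟨vq, -⟩ := odd_top H hΩ hG hqS 𝔓 h1 h3
    obtain ⟨c1, -, -, -⟩ := csq g W K L f θ S 𝔮 r P H.hg hG H.sq H.good q hqS (H.cq hqS) 𝔓₀ ho₀ hv1
    have s1 : Sq1 𝔓 (-1 : Ω) := by
      have h4 := c1 (-1) (by
        intro hm
        apply a6.ne_top
        rw [Ideal.eq_top_iff_one]
        have := Ideal.neg_mem_iff _ |>.2 hm
        simpa using this)
      have h5 := sq_up hv₀ h4
      have e : algebraMap L Ω (algebraMap K L ((-1 : 𝓞 K) : K)) = -1 := by simp
      rwa [e] at h5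
    have s2 : Sq1 𝔓 (algebraMap M Ω (D' : M)) := by
      have h4 := c1 (D' : 𝓞 K) (by rw [hqv]; exact hD'm (by rw [← hqv]; exact a7))
      have h5 := sq_up hv₀ h4
      have e : algebraMap L Ω (algebraMap K L ((D' : 𝓞 K) : K)) = algebraMap M Ω (D' : M) := by
        simp
      rwa [e] at h5
    have hl := hloc w
    rw [Pool.Agent.N78.PF.fF_scale hGM.mon, hDD, Nat.cast_mul] at hl
    have e8 : ((Dp J : ℕ) : Ω) = algebraMap M Ω ((q : M) * (D' : M)) := by
      rw [hDD]
      simp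
    have e9 : (q : Ω) = algebraMap M Ω (q : M) := by simp
    rw [e8] at hne ⊢
    rw [e9]
    rw [e9] at vq
    refine Pool.Agent.N78.PF.LOC2 M Ω (𝓞 M) (𝓞 Ω) w 𝔓 hL v2 g (fF (fM M f)) h (fM M (r q))
      (q : M) (D' : M) (algebraMap L Ω θ) H.hg (hGM.mon.map _) ?_ (a8.map _) ?_ ?_ ?_ hGM.root h3
      vq vD' s1 s2 hl hne
    · rw [hGM.mon.natDegree_map, hGM.deg]
    · rw [a8.natDegree_map, a9]
    · refine irr_up hv hdw ?_
      rw [← hqv]
      exact a10
    · intro j
      have h4 : f.coeff j - (X * r q).coeff j ∈ v.asIdeal := by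
        rw [← hqv]
        exact H.cq hqS j
      rw [← HeightOneSpectrum.valuation_lt_one_iff_mem (K := K), ← hv] at h4
      have e : (fF (fM M f)).coeff j - algebraMap (𝓞 M) M ((X * fM M (r q)).coeff j) =
          algebraMap K M (algebraMap (𝓞 K) K (f.coeff j - (X * r q).coeff j)) := by
        have e1 : X * fM M (r q) = (X * r q).map (algebraMap (𝓞 K) (𝓞 M)) := by
          rw [Polynomial.map_mul, map_X]
        rw [e1, coeff_map, coeff_map, coeff_map, map_sub, map_sub]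
        rfl
      rw [e]
      exact h4
  · -- the primes over two
    haveI : Fact (Nat.Prime 2) := ⟨Nat.prime_two⟩
    obtain ⟨δ, hδ⟩ := Pool.Agent.N891.PQ.sq_two (Dp J) hD8
    obtain ⟨ι, hι, -, -⟩ := Pool.Agent.N498.PQ.cpl K 2 w (by
      change ((2 : ℕ) : 𝓞 K) ∈ w.asIdeal
      exact_mod_cast hw)
    haveI : CharZero (w.adicCompletion K) :=
      charZero_of_injective_algebraMap (algebraMap K (w.adicCompletion K)).injective
    obtain ⟨j, hj⟩ := Emb.emb φ.toRingHom
    have ej : j.comp (algebraMap M ((Emb.pl φ.toRingHom).adicCompletion M)) = φ.toRingHom :=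
      RingHom.ext hj
    have h0 : LocIm ((Emb.pl φ.toRingHom).adicCompletion M)
        ((fF ((fM M f).scaleRoots ((Dp J : ℕ) : 𝓞 M))).map (algebraMap M _))
        (h.map (algebraMap M _)) := hloc _
    have h1 := locIm_map j h0
    have ea : ((fF ((fM M f).scaleRoots ((Dp J : ℕ) : 𝓞 M))).map
        (algebraMap M ((Emb.pl φ.toRingHom).adicCompletion M))).map j =
        (fF ((fM M f).scaleRoots ((Dp J : ℕ) : 𝓞 M))).map φ.toRingHom := by
      rw [Polynomial.map_map (algebraMap M _) j, ej]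
    have eb : (h.map (algebraMap M ((Emb.pl φ.toRingHom).adicCompletion M))).map j =
        h.map φ.toRingHom := by
      rw [Polynomial.map_map, ej]
    rw [ea, eb] at h1
    letI : Algebra M (w.adicCompletion K) := φ.toRingHom.toAlgebra
    have h2 := Pool.Agent.N78.PF.map_locF (F := M) (E := w.adicCompletion K) hGM.mon hGM.deg hD0
      (ι δ) (by rw [← map_pow, hδ, map_natCast]) h h1
    have e1 : (fF (fM M f)).map φ.toRingHom =
        (fF f).map (algebraMap K (w.adicCompletion K)) := by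
      rw [fF_fM, Polynomial.map_map]
      congr 1
      exact φ.comp_algebraMap
    have h3 : LocIm (w.adicCompletion K) ((fF f).map (algebraMap K (w.adicCompletion K)))
        ((h.comp (C ((Dp J : ℕ) : M) * X)).map φ.toRingHom) := by
      rw [← e1]
      exact h2
    have h4 := Polynomial.map_dvd φ.toRingHom (hcomp t ht)
    rw [Polynomial.map_map, Polynomial.map_sub] at h4
    have e2 : φ.toRingHom.comp (algebraMap K M) = algebraMap K (w.adicCompletion K) :=
      φ.comp_algebraMap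
    rw [e2] at h4
    exact locIm_congr h4 h3
  · -- the real places
    letI : Algebra M ℝ := τ.toAlgebra
    have h2 := Pool.Agent.N78.PF.map_locF (F := M) (E := ℝ) hGM.mon hGM.deg hD0
      (Real.sqrt (Dp J)) (Real.sq_sqrt (Nat.cast_nonneg _)) h (hreal τ)
    have e1 : (fF (fM M f)).map τ = (fF f).map (τ.comp (algebraMap K M)) := by
      rw [fF_fM, Polynomial.map_map]
    have h3 : LocIm ℝ ((fF f).map (τ.comp (algebraMap K M)))
        ((h.comp (C ((Dp J : ℕ) : M) * X)).map τ) := by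
      rw [← e1]
      exact h2
    have h4 := Polynomial.map_dvd τ (hcomp t ht)
    rw [Polynomial.map_map, Polynomial.map_sub] at h4
    exact locIm_congr h4 h3

end top

end Pool.Agent.H25P
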