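import Pool.Agent.H25P.Stab
import Pool.Agent.H25P.Cnd
import Pool.Agent.H25P.Top

/-!
# The root number over a non-cyclic extension
-/

set_option autoImplicit false
set_option linter.all false

open IsDedekindDomain NumberField Polynomial
open scoped Classical IntermediateField Pointwise

namespace Pool.Agent.H25P

open Pool.Agent.N922.PQ (Gen)
open Pool.Agent.N783.PF (fF rd)

section root

variable {K : Type} [Field K] [NumberField K] {M : Type} [Field M] [NumberField M] [Algebra K M]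

/-- Only finitely many primes divide the discriminant. -/
theorem finite_bad {f : (𝓞 M)[X]} (hm : f.Monic) (hi : Irreducible (fF f)) :
    {v : HeightOneSpectrum (𝓞 M) |
      ¬ ((2 : 𝓞 M) ∉ v.asIdeal ∧ (rd v.asIdeal f).Separable)}.Finite := by
  have hinj : Function.Injective (algebraMap (𝓞 M) M) := NumberField.RingOfIntegers.coe_injective
  set c : 𝓞 M := f.resultant (derivative f) with hc
  have hd0 : f.natDegree ≠ 0 := by
    intro h0
    have h1 : f = 1 := hm.natDegree_eq_zero.1 h0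
    apply hi.not_isUnit
    rw [h1]
    simp [fF]
  have hdeg : (fF f).natDegree = f.natDegree := hm.natDegree_map _
  have hdeg' : (derivative (fF f)).natDegree = (derivative f).natDegree := by
    rw [fF, derivative_map, natDegree_map_eq_of_injective hinj]
  have hc0 : c ≠ 0 := by
    intro h0
    have h1 : (fF f).resultant (derivative (fF f)) = 0 := by
      have h2 := Polynomial.resultant_map_map f (derivative f) f.natDegree
        (derivative f).natDegree (algebraMap (𝓞 M) M)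
      rw [← derivative_map] at h2
      rw [hdeg, hdeg', h2, ← hc, h0, map_zero]
    exact ((Polynomial.resultant_eq_zero_iff).1 h1).2 hi.separable
  obtain ⟨p, q, -, -, hpq⟩ := Polynomial.exists_mul_add_mul_eq_C_resultant f (derivative f)
    le_rfl le_rfl (Or.inl hd0)
  have h2c : (2 * c : 𝓞 M) ≠ 0 := mul_ne_zero two_ne_zero hc0
  have hfin : {v : HeightOneSpectrum (𝓞 M) | v.asIdeal ∣ Ideal.span {2 * c}}.Finite :=
    Ideal.finite_factors (by
      intro h0
      exact h2c (Ideal.span_singleton_eq_bot.1 h0))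
  refine hfin.subset fun v hv => ?_
  rw [Set.mem_setOf_eq] at hv ⊢
  rw [Ideal.dvd_span_singleton]
  by_contra hn
  apply hv
  haveI := v.isPrime
  refine ⟨fun h => hn (Ideal.mul_mem_right _ _ h), ?_⟩
  have hcv : c ∉ v.asIdeal := fun h => hn (Ideal.mul_mem_left _ _ h)
  letI : Field (𝓞 M ⧸ v.asIdeal) := @Ideal.Quotient.field _ _ v.asIdeal v.isMaximal
  have h3 := congrArg (Polynomial.map (Ideal.Quotient.mk v.asIdeal)) hpq
  rw [Polynomial.map_add, Polynomial.map_mul, Polynomial.map_mul, map_C, ← hc] at h3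
  have h4 : Ideal.Quotient.mk v.asIdeal c ≠ 0 := by
    rwa [Ne, Ideal.Quotient.eq_zero_iff_mem]
  refine ⟨C (Ideal.Quotient.mk v.asIdeal c)⁻¹ * p.map (Ideal.Quotient.mk v.asIdeal),
    C (Ideal.Quotient.mk v.asIdeal c)⁻¹ * q.map (Ideal.Quotient.mk v.asIdeal), ?_⟩
  rw [derivative_map]
  have h5 : C (Ideal.Quotient.mk v.asIdeal c)⁻¹ * C (Ideal.Quotient.mk v.asIdeal c) = 1 := by
    rw [← C_mul, inv_mul_cancel₀ h4, C_1]
  rw [← h5, ← h3]
  ring

/-- The reduction at the primes over a prime modulo which `f` is irreducible. -/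
theorem sep_up {f : (𝓞 K)[X]} {v : HeightOneSpectrum (𝓞 M)}
    {𝔭 : Ideal (𝓞 K)} (h𝔭 : 𝔭 = v.asIdeal.comap (algebraMap (𝓞 K) (𝓞 M))) (h0 : 𝔭 ≠ ⊥)
    (hi : Irreducible (rd 𝔭 f)) : (rd v.asIdeal (fM M f)).Separable := by
  haveI hp : 𝔭.IsPrime := by rw [h𝔭]; exact Ideal.comap_isPrime _ _
  haveI hmax : 𝔭.IsMaximal := hp.isMaximal h0
  letI : Field (𝓞 K ⧸ 𝔭) := Ideal.Quotient.field 𝔭
  haveI : Finite (𝓞 K ⧸ 𝔭) := Ideal.finiteQuotientOfFreeOfNeBot _ h0
  have h1 : (rd 𝔭 f).Separable := PerfectField.separable_of_irreducible hi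
  have h2 : rd v.asIdeal (fM M f) =
      (rd 𝔭 f).map (Ideal.quotientMap v.asIdeal (algebraMap (𝓞 K) (𝓞 M)) h𝔭.le) := by
    unfold rd fM
    rw [Polynomial.map_map, Polynomial.map_map]
    congr 1
  rw [h2]
  exact h1.map

/-- The properties of the local root numbers. -/
structure Signs (K : Type) [Field K] [NumberField K] {M : Type} [Field M] [NumberField M]
    [Algebra K M] (f : (𝓞 M)[X]) (w : HeightOneSpectrum (𝓞 M) → ℤ) : Prop where
  sign : ∀ v, w v = 1 ∨ w v = -1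
  good : ∀ v, (2 : 𝓞 M) ∉ v.asIdeal → (rd v.asIdeal f).Separable → w v = 1
  conj : ∀ (σ : M ≃ₐ[K] M) (v v' : HeightOneSpectrum (𝓞 M)),
    (∀ x : M, v'.valuation M x = v.valuation M (σ x)) → w v' = w v

theorem Signs.finite {f : (𝓞 M)[X]} {w : HeightOneSpectrum (𝓞 M) → ℤ} (hw : Signs K f w)
    (hm : f.Monic) (hi : Irreducible (fF f)) : {v | w v ≠ 1}.Finite := by
  refine (finite_bad hm hi).subset fun v hv h => hv ?_
  exact hw.good v h.1 h.2

/-- No prime with sign `-1` is stable under a non-cyclic Galois group. -/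
theorem not_fixed [IsGalois K M] (hcyc : ¬ IsCyclic (M ≃ₐ[K] M))
    (hemb : ∀ w : HeightOneSpectrum (𝓞 K), (2 : 𝓞 K) ∈ w.asIdeal →
      Nonempty (M →ₐ[K] w.adicCompletion K))
    {γ : M} {m : ℤ[X]} {δ : ℤ} (hG : Gen ℚ γ m δ) {W : ℕ} (hW : 0 < W)
    (hδ : ∀ p : ℕ, p.Prime → (p : ℤ) ∣ δ → p ∣ W) {f : (𝓞 K)[X]}
    (hirr : ∀ 𝔭 : Ideal (𝓞 K), 𝔭.IsPrime → (W : 𝓞 K) ∈ 𝔭 → Irreducible (rd 𝔭 f))
    {w : HeightOneSpectrum (𝓞 M) → ℤ} (hw : Signs K (fM M f) w) (v : HeightOneSpectrum (𝓞 M)) :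
    ¬ (w v = -1 ∧ Fixed K v) := by
  rintro ⟨hv, hfix⟩
  have hu0 : v.asIdeal.comap (algebraMap (𝓞 K) (𝓞 M)) ≠ ⊥ := by
    intro h0
    exact v.ne_bot (Ideal.eq_bot_of_comap_eq_bot h0)
  let u : HeightOneSpectrum (𝓞 K) :=
    ⟨v.asIdeal.comap (algebraMap (𝓞 K) (𝓞 M)), Ideal.comap_isPrime _ _, hu0⟩
  by_cases h2 : (2 : 𝓞 M) ∈ v.asIdeal
  · have h2u : (2 : 𝓞 K) ∈ u.asIdeal := by
      show algebraMap (𝓞 K) (𝓞 M) 2 ∈ v.asIdeal
      rwa [map_ofNat]
    obtain ⟨φ⟩ := hemb u h2u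
    have h3 := card_of_fixed hfix (u := u) (fun a ha => ha) φ
    apply hcyc
    exact ⟨1, fun τ => by rw [h3 τ]; exact Subgroup.mem_zpowers _⟩
  · by_cases hWv : (W : 𝓞 M) ∈ v.asIdeal
    · have hWu : (W : 𝓞 K) ∈ u.asIdeal := by
        show algebraMap (𝓞 K) (𝓞 M) (W : 𝓞 K) ∈ v.asIdeal
        rwa [map_natCast]
      have h3 := hw.good v h2 (sep_up (𝔭 := u.asIdeal) rfl hu0 (hirr u.asIdeal u.isPrime hWu))
      rw [hv] at h3
      exact absurd h3 (by decide)
    · exact hcyc (cyclic_of_fixed hfix hG (not_delta hG.ne hδ hWv))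

/-- The root number over a non-cyclic Galois extension of degree `2 ^ n`. -/
theorem root_one [IsGalois K M] {n : ℕ} (hn : Module.finrank K M = 2 ^ n)
    (hcyc : ¬ IsCyclic (M ≃ₐ[K] M))
    (hemb : ∀ w : HeightOneSpectrum (𝓞 K), (2 : 𝓞 K) ∈ w.asIdeal →
      Nonempty (M →ₐ[K] w.adicCompletion K)) (hinf : IsUnramifiedAtInfinitePlaces K M)
    {γ : M} {m : ℤ[X]} {δ : ℤ} (hG : Gen ℚ γ m δ) {W : ℕ} (hW : 0 < W)
    (hδ : ∀ p : ℕ, p.Prime → (p : ℤ) ∣ δ → p ∣ W) {f : (𝓞 K)[X]} (hm : f.Monic)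
    (hi : Irreducible (fF (fM M f)))
    (hirr : ∀ 𝔭 : Ideal (𝓞 K), 𝔭.IsPrime → (W : 𝓞 K) ∈ 𝔭 → Irreducible (rd 𝔭 f))
    {w : HeightOneSpectrum (𝓞 M) → ℤ} (hw : Signs K (fM M f) w) (g : ℕ) :
    (-1 : ℤ) ^ (g * Nat.card (InfinitePlace M)) * ∏ᶠ v, w v = 1 := by
  have hn1 : 1 ≤ n := by
    by_contra h0
    have h1 : n = 0 := by omega
    subst h1
    rw [pow_zero] at hn
    apply hcyc
    haveI : Subsingleton (M ≃ₐ[K] M) := by
      rw [← Finite.card_le_one_iff_subsingleton, IsGalois.card_aut_eq_finrank K M, hn]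
    infer_instance
  have hfin := hw.finite (hm.map _) hi
  rw [pr hn w hw.sign hfin hw.conj]
  have h1 : {v | w v = -1 ∧ Fixed K v} = ∅ := by
    rw [Set.eq_empty_iff_forall_notMem]
    intro v hv
    exact not_fixed hcyc hemb hG hW hδ hirr hw v hv
  rw [h1, Set.ncard_empty, pow_zero, mul_one]
  have h2 : Even (g * Nat.card (InfinitePlace M)) := (even_inf hn hn1 hinf).mul_left g
  exact h2.neg_one_pow

end root

end Pool.Agent.H25P
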