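import Pool.Agent.N783.PF.Loc

/-!
# Basic properties of the local image, valuations

The lemmas `ev_down`, `sq_down` are those of `N922/PQ/Big.lean`.
-/

set_option autoImplicit false
set_option linter.all false

open Polynomial IsDedekindDomain NumberField
open scoped Classical

namespace Pool.Agent.H25P

open Pool.Agent.N874.PP (Ev Sq1 U0)
open Pool.Agent.N783.PQ (LocIm)
open Pool.Agent.N783.PF

section locIm

variable {E : Type} [Field E] {f h h' : E[X]}

theorem locIm_congr (hd : f ∣ h - h') (H : LocIm E f h) : LocIm E f h' := by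
  obtain ⟨l, s, hl, hs⟩ := H
  refine ⟨l, s, hl, ?_⟩
  have e : h' * (l.map fun p => (-1) ^ p.1.natDegree * p.1).prod - s ^ 2 =
      (h * (l.map fun p => (-1) ^ p.1.natDegree * p.1).prod - s ^ 2) -
        (h - h') * (l.map fun p => (-1) ^ p.1.natDegree * p.1).prod := by ring
  rw [e]
  exact dvd_sub hs (hd.mul_right _)

theorem locIm_sq (f s : E[X]) : LocIm E f (s ^ 2) := by
  refine ⟨[], s, ?_, ?_⟩
  · intro p hp
    simp at hp
  · simp

theorem locIm_mul (H : LocIm E f h) (H' : LocIm E f h') : LocIm E f (h * h') := by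
  obtain ⟨l, s, hl, hs⟩ := H
  obtain ⟨l', s', hl', hs'⟩ := H'
  refine ⟨l ++ l', s * s', ?_, ?_⟩
  · intro p hp
    rcases List.mem_append.1 hp with hp | hp
    · exact hl p hp
    · exact hl' p hp
  · rw [List.map_append, List.prod_append]
    have e : h * h' * ((l.map fun p => (-1) ^ p.1.natDegree * p.1).prod *
        (l'.map fun p => (-1) ^ p.1.natDegree * p.1).prod) - (s * s') ^ 2 =
        h * (l.map fun p => (-1) ^ p.1.natDegree * p.1).prod *
          (h' * (l'.map fun p => (-1) ^ p.1.natDegree * p.1).prod - s' ^ 2) +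
        s' ^ 2 * (h * (l.map fun p => (-1) ^ p.1.natDegree * p.1).prod - s ^ 2) := by ring
    rw [e]
    exact dvd_add (hs'.mul_left _) (hs.mul_left _)

theorem locIm_map {E' : Type} [Field E'] (j : E →+* E') (H : LocIm E f h) :
    LocIm E' (f.map j) (h.map j) := by
  obtain ⟨l, s, hl, hs⟩ := H
  refine ⟨l.map fun p => (p.1.map j, p.2.map j), s.map j, ?_, ?_⟩
  · intro p hp
    obtain ⟨p', hp', rfl⟩ := List.mem_map.1 hp
    obtain ⟨h1, h2, h3⟩ := hl p' hp'
    refine ⟨h1.map j, ?_, ?_⟩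
    · exact h2.map (mapRingHom j)
    · obtain ⟨c, hc⟩ := h3
      refine ⟨c.map j, ?_⟩
      have := congrArg (Polynomial.map j) hc
      rw [Polynomial.map_mul, Polynomial.map_sub, Polynomial.map_pow] at this
      exact this
  · have e : ((l.map fun p => (p.1.map j, p.2.map j)).map
        fun p : E'[X] × E'[X] => (-1) ^ p.1.natDegree * p.1).prod =
        ((l.map fun p : E[X] × E[X] => (-1) ^ p.1.natDegree * p.1).prod).map j := by
      rw [List.map_map, Polynomial.map_list_prod, List.map_map]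
      congr 1
      refine List.map_congr_left fun p _ => ?_
      simp [natDegree_map]
    rw [e]
    obtain ⟨c, hc⟩ := hs
    refine ⟨c.map j, ?_⟩
    have := congrArg (Polynomial.map j) hc
    rw [Polynomial.map_mul, Polynomial.map_sub, Polynomial.map_pow, Polynomial.map_mul] at this
    exact this

end locIm

section prel

variable {L Ω O O' : Type} [Field L] [Field Ω] [Algebra L Ω]
  [CommRing O] [IsDedekindDomain O] [Algebra O L] [IsFractionRing O L]
  [CommRing O'] [IsDedekindDomain O'] [Algebra O' Ω] [IsFractionRing O' Ω]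

variable {𝔓 : HeightOneSpectrum O} {𝔓' : HeightOneSpectrum O'}

theorem ev_down (hv : ∀ x : L, 𝔓'.valuation Ω (algebraMap L Ω x) = 𝔓.valuation L x) (x : L) :
    Ev 𝔓' (algebraMap L Ω x) ↔ Ev 𝔓 x := by
  constructor
  · rintro ⟨y, hy⟩
    obtain ⟨z, hz⟩ := 𝔓.valuation_surjective L (𝔓'.valuation Ω y)
    exact ⟨z, by rw [hz, ← hy, hv]⟩
  · rintro ⟨y, hy⟩
    exact ⟨algebraMap L Ω y, by rw [hv, hv, hy]⟩

theorem sq_down (hv : ∀ x : L, 𝔓'.valuation Ω (algebraMap L Ω x) = 𝔓.valuation L x)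
    (hd : ∀ s : Ω, s ≠ 0 → ∃ s₀ : L, 𝔓'.valuation Ω (s - algebraMap L Ω s₀) < 𝔓'.valuation Ω s)
    {x : L} (h : Sq1 𝔓' (algebraMap L Ω x)) : Sq1 𝔓 x := by
  obtain ⟨s, hs⟩ := h
  have h1 : 𝔓'.valuation Ω (s ^ 2) = 𝔓'.valuation Ω (algebraMap L Ω x) := by
    have := Valuation.map_sub_eq_of_lt_left (𝔓'.valuation Ω) (x := algebraMap L Ω x)
      (y := algebraMap L Ω x - s ^ 2) hs
    rwa [sub_sub_cancel] at this
  have hx0 : 𝔓'.valuation Ω (algebraMap L Ω x) ≠ 0 := by
    intro h0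
    rw [h0] at hs
    exact absurd hs (by simp)
  have hs0 : s ≠ 0 := by
    rintro rfl
    rw [zero_pow two_ne_zero, map_zero] at h1
    exact hx0 h1.symm
  obtain ⟨s₀, hs₀⟩ := hd s hs0
  refine ⟨s₀, ?_⟩
  rw [← hv, ← hv, map_sub, map_pow]
  have e : algebraMap L Ω x - algebraMap L Ω s₀ ^ 2 = (algebraMap L Ω x - s ^ 2) +
      (s - algebraMap L Ω s₀) * (s + algebraMap L Ω s₀) := by ring
  rw [e]
  refine lt_of_le_of_lt (Valuation.map_add _ _ _) (max_lt hs ?_)
  have h2 : 𝔓'.valuation Ω (s + algebraMap L Ω s₀) ≤ 𝔓'.valuation Ω s := by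
    have e2 : s + algebraMap L Ω s₀ = s + s - (s - algebraMap L Ω s₀) := by ring
    rw [e2]
    refine (Valuation.map_sub _ _ _).trans (max_le ?_ hs₀.le)
    exact (Valuation.map_add _ _ _).trans (max_le le_rfl le_rfl)
  have hpos : 0 < 𝔓'.valuation Ω s := by
    rw [zero_lt_iff]
    exact (Valuation.ne_zero_iff _).2 hs0
  rw [map_mul, ← h1, map_pow, pow_two]
  calc _ ≤ 𝔓'.valuation Ω (s - algebraMap L Ω s₀) * 𝔓'.valuation Ω s := mul_le_mul' le_rfl h2
    _ < 𝔓'.valuation Ω s * 𝔓'.valuation Ω s := mul_lt_mul_of_pos_right hs₀ hpos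

theorem ev_sq (𝔓 : HeightOneSpectrum O') (x : Ω) : Ev 𝔓 (x ^ 2) := ⟨x, map_pow _ _ _⟩

theorem ev_mul {𝔓 : HeightOneSpectrum O'} {x y : Ω} (hx : Ev 𝔓 x) (hy : Ev 𝔓 y) :
    Ev 𝔓 (x * y) := by
  obtain ⟨u, hu⟩ := hx
  obtain ⟨v, hv⟩ := hy
  exact ⟨u * v, by rw [map_mul, map_mul, hu, hv, mul_pow]⟩

end prel

section nf

variable {F : Type} [Field F] [NumberField F]

theorem nat_val (n : ℕ) (v : HeightOneSpectrum (𝓞 F)) :
    v.valuation F (n : F) < 1 ↔ (n : 𝓞 F) ∈ v.asIdeal := by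
  have e : (n : F) = algebraMap (𝓞 F) F (n : 𝓞 F) := by rw [map_natCast]
  rw [e, HeightOneSpectrum.valuation_lt_one_iff_mem]

theorem nat_val_le (n : ℕ) (v : HeightOneSpectrum (𝓞 F)) : v.valuation F (n : F) ≤ 1 := by
  have e : (n : F) = algebraMap (𝓞 F) F (n : 𝓞 F) := by rw [map_natCast]
  rw [e]
  exact v.valuation_le_one _

theorem nat_val_one {n : ℕ} {v : HeightOneSpectrum (𝓞 F)} :
    v.valuation F (n : F) = 1 ↔ (n : 𝓞 F) ∉ v.asIdeal := by
  rw [← nat_val, not_lt]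
  exact ⟨fun h => h.ge, fun h => le_antisymm (nat_val_le n v) h⟩

end nf

end Pool.Agent.H25P
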