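import Pool.Agent.N40.PQ.Spl
import Pool.Agent.N710.PF.Exs

/-!
# The sets of primes `q`, with `m` splitting modulo `q`

After `N40/PQ/Spl.lean` and `N710/PF/Exs.lean`.
-/

set_option autoImplicit false
set_option linter.all false

open Polynomial NumberField
open scoped Classical IntermediateField

namespace Pool.Agent.H25P

open Pool.Agent.N922.PQ (Gen SplitMod)
open Pool.Agent.N783.PF
open Pool.Agent.N40.PQ (splitMod_of_splits claim1 claim2 mod8)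

/-- Infinitely many primes congruent to `1` modulo `8` such that a given polynomial splits. -/
theorem inf_split (g : ℤ[X]) (hgm : g.Monic) :
    {q : ℕ | q.Prime ∧ q % 8 = 1 ∧ SplitMod (q : ℤ) g}.Infinite := by
  -- the splitting field
  set f : ℤ[X] := g * (X ^ 4 + 1) with hf
  have h41 : (X ^ 4 + 1 : ℤ[X]).Monic := by monicity!
  have hfm : f.Monic := hgm.mul h41
  have hNN : NumberField (f.map (algebraMap ℤ ℚ)).SplittingField :=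
    { to_charZero := charZero_of_injective_algebraMap
        (algebraMap ℚ (f.map (algebraMap ℤ ℚ)).SplittingField).injective
      to_finiteDimensional := inferInstance }
  have hfs : (f.map (algebraMap ℤ (f.map (algebraMap ℤ ℚ)).SplittingField)).Splits := by
    have h1 := SplittingField.splits (f.map (algebraMap ℤ ℚ))
    rw [Polynomial.map_map] at h1
    convert h1 using 2
    exact RingHom.ext_int _ _
  obtain ⟨η, G, δ', hGG, hdG⟩ :=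
    Pool.Agent.N40.PQ.gen (f.map (algebraMap ℤ ℚ)).SplittingField
  obtain ⟨Δ, hΔ0, hΔ⟩ := claim1 η G δ' hGG hdG f hfm hfs
  have hg0 : G.natDegree ≠ 0 := by
    rw [hdG]; exact Module.finrank_pos.ne'
  have hgood : ∀ q : ℕ, q.Prime → ¬ (q : ℤ) ∣ 2 * Δ → ∀ c : ℤ, (q : ℤ) ∣ G.eval c →
      SplitMod (q : ℤ) g ∧ q % 8 = 1 := by
    intro q hq hqΔ c hc
    have : Fact q.Prime := ⟨hq⟩
    have h1 := hΔ q hq (fun h => hqΔ (h.mul_left _)) c hc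
    rw [hf, Polynomial.map_mul] at h1
    have hne1 : g.map (Int.castRingHom (ZMod q)) ≠ 0 := (hgm.map _).ne_zero
    have hne2 : (X ^ 4 + 1 : ℤ[X]).map (Int.castRingHom (ZMod q)) ≠ 0 := (h41.map _).ne_zero
    rw [splits_mul_iff hne1 hne2] at h1
    refine ⟨splitMod_of_splits q hq g hgm h1.1, mod8 hq ?_ h1.2⟩
    rintro rfl
    exact hqΔ (dvd_mul_right _ _)
  intro hfin
  set P₀ : ℤ := 2 * Δ * ∏ q ∈ hfin.toFinset, (q : ℤ) with hPi
  have hPi0 : P₀ ≠ 0 := by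
    refine mul_ne_zero (mul_ne_zero two_ne_zero hΔ0) (Finset.prod_ne_zero_iff.2 fun q hq => ?_)
    exact_mod_cast (hfin.mem_toFinset.1 hq).1.ne_zero
  obtain ⟨q, c, h1, h3, h4⟩ := claim2 G hGG.monic hg0 P₀ hPi0
  obtain ⟨h5, h6⟩ := hgood q h1 (fun h => h3 (h.mul_right _)) c h4
  apply h3
  exact (Finset.dvd_prod_of_mem (fun q : ℕ => (q : ℤ))
    (hfin.mem_toFinset.2 ⟨h1, h6, h5⟩)).mul_left _

/-- Existence of `S`. -/
theorem exs2 (F : Type) [Field F] [NumberField F] (g W : ℕ) (hg : 1 ≤ g) (m : ℤ[X]) (hm : m.Monic)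
    (n : ℕ) : ∃ (S : Finset ℕ) (𝔮 : ℕ → Ideal (𝓞 F)) (h P : ℕ → (𝓞 F)[X]),
      GoodS g W S 𝔮 h P ∧ S.card = n ∧ ∀ q ∈ S, SplitMod (q : ℤ) m := by
  obtain ⟨S, hS, hcard⟩ := ((inf_split m hm).sdiff
    (Set.finite_le_nat (W + (2 * g + 1) + (discr F).natAbs))).exists_subset_card_eq n
  have hS2 : ∀ q ∈ S, q.Prime ∧ W + (2 * g + 1) + (discr F).natAbs < q ∧ q % 8 = 1 ∧
      SplitMod (q : ℤ) m := by
    intro q hq
    obtain ⟨⟨h1, h2, h3⟩, h4⟩ := hS hq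
    exact ⟨h1, not_le.1 h4, h2, h3⟩
  have hdata : ∀ q : ℕ, ∃ (𝔮 : Ideal (𝓞 F)) (h A : (𝓞 F)[X]), q ∈ S →
    (∀ 𝔭 : Ideal (𝓞 F), 𝔭.IsPrime → (q : 𝓞 F) ∉ 𝔭 ^ 2) ∧
    𝔮.IsPrime ∧ (q : 𝓞 F) ∈ 𝔮 ∧
    h.Monic ∧ h.natDegree = 2 * g ∧ Irreducible (rd 𝔮 h) ∧
    A.Monic ∧ A.natDegree = 2 * g + 1 ∧ A.coeff (2 * g) = 0 ∧
    Cg 𝔮 A (X * h) ∧
    ∀ 𝔭 : Ideal (𝓞 F), 𝔭.IsPrime → (q : 𝓞 F) ∈ 𝔭 → 𝔭 ≠ 𝔮 → Irreducible (rd 𝔭 A) := by
    intro q
    by_cases hq : q ∈ S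
    · obtain ⟨h1, h2, h3, h4⟩ := hS2 q hq
      obtain ⟨𝔮, h, A, hh⟩ := Pool.Agent.N710.PF.exists_data F g q hg h1 (by omega) (by omega)
      exact ⟨𝔮, h, A, fun _ => hh⟩
    · exact ⟨⊥, 0, 0, fun h => absurd h hq⟩
  choose 𝔮 h A hh using hdata
  refine ⟨S, 𝔮, h, A, fun q hq => ?_, hcard, fun q hq => (hS2 q hq).2.2.2⟩
  obtain ⟨h1, h2, h3, h4⟩ := hS2 q hq
  exact ⟨h1, by omega, by omega, h3, hh q hq⟩

end Pool.Agent.H25P
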