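import Mathlib

/-!
# Irreducible polynomials of trace zero over a finite field

For every finite field `k` and every `n ≥ 3` there is a monic irreducible polynomial of degree `n`
without term of degree `n - 1`.
-/

set_option autoImplicit false
set_option linter.all false

open Polynomial

namespace Pool.Agent.H25P

/-- a geometric sum -/
theorem geo_lt (q m : ℕ) (hq : 2 ≤ q) : ∑ d ∈ Finset.range m, q ^ (d + 1) < q ^ (m + 1) := by
  induction m with
  | zero => simp; omega
  | succ m ih =>
    rw [Finset.sum_range_succ]
    calc ∑ d ∈ Finset.range m, q ^ (d + 1) + q ^ (m + 1) < q ^ (m + 1) + q ^ (m + 1) := by omega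
      _ = 2 * q ^ (m + 1) := by ring
      _ ≤ q * q ^ (m + 1) := Nat.mul_le_mul_right _ hq
      _ = q ^ (m + 1 + 1) := by ring

theorem exists_irr_tr (k : Type) [Field k] [Finite k] (n : ℕ) (hn : 3 ≤ n) :
    ∃ f : k[X], f.Monic ∧ Irreducible f ∧ f.natDegree = n ∧ f.coeff (n - 1) = 0 := by
  classical
  obtain ⟨p, hp⟩ := CharP.exists k
  haveI : Fact p.Prime := ⟨CharP.char_is_prime k p⟩
  haveI : NeZero n := ⟨by omega⟩
  let E := FiniteField.Extension k p n
  haveI : Finite E := inferInstance
  haveI : FiniteDimensional k E := inferInstance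
  haveI : Fintype E := Fintype.ofFinite E
  have hrk : Module.finrank k E = n := FiniteField.finrank_extension k p n
  set q : ℕ := Nat.card k with hq
  have hq2 : 2 ≤ q := Finite.one_lt_card
  have hsurj : Function.Surjective (Algebra.trace k E) := Algebra.trace_surjective k E
  have hker : Module.finrank k (LinearMap.ker (Algebra.trace k E)) = n - 1 := by
    have h1 := LinearMap.finrank_range_add_finrank_ker (Algebra.trace k E)
    rw [LinearMap.range_eq_top.2 hsurj, finrank_top, Module.finrank_self, hrk] at h1
    omega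
  have hcard : Nat.card (LinearMap.ker (Algebra.trace k E)) = q ^ (n - 1) := by
    rw [Module.natCard_eq_pow_finrank (K := k), hker]
  -- the bad elements
  let bad : ℕ → Finset E := fun d => Finset.univ.filter fun x : E => x ^ q ^ (d + 1) = x
  have hbad : ∀ d, (bad d).card ≤ q ^ (d + 1) := by
    intro d
    have hd : 1 < q ^ (d + 1) := Nat.one_lt_pow (by omega) (by omega)
    have hne : (X ^ q ^ (d + 1) - X : E[X]) ≠ 0 := FiniteField.X_pow_card_sub_X_ne_zero E hd
    have hdeg : (X ^ q ^ (d + 1) - X : E[X]).natDegree = q ^ (d + 1) :=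
      FiniteField.X_pow_card_sub_X_natDegree_eq E hd
    have hsub : bad d ⊆ (X ^ q ^ (d + 1) - X : E[X]).roots.toFinset := by
      intro x hx
      have hx' := (Finset.mem_filter.1 hx).2
      rw [Multiset.mem_toFinset, mem_roots hne, IsRoot.def, eval_sub, eval_pow, eval_X, hx',
        sub_self]
    calc (bad d).card ≤ (X ^ q ^ (d + 1) - X : E[X]).roots.toFinset.card :=
          Finset.card_le_card hsub
      _ ≤ Multiset.card (X ^ q ^ (d + 1) - X : E[X]).roots := Multiset.toFinset_card_le _
      _ ≤ (X ^ q ^ (d + 1) - X : E[X]).natDegree := card_roots' _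
      _ = q ^ (d + 1) := hdeg
  let B : Finset E := (Finset.range (n / 2)).biUnion bad
  have hB : B.card < q ^ (n - 1) := by
    calc B.card ≤ ∑ d ∈ Finset.range (n / 2), (bad d).card := Finset.card_biUnion_le
      _ ≤ ∑ d ∈ Finset.range (n / 2), q ^ (d + 1) := Finset.sum_le_sum fun d _ => hbad d
      _ < q ^ (n / 2 + 1) := geo_lt q _ hq2
      _ ≤ q ^ (n - 1) := Nat.pow_le_pow_right (by omega) (by omega)
  obtain ⟨α, hα, hαB⟩ : ∃ α : E, Algebra.trace k E α = 0 ∧ α ∉ B := by
    by_contra hcon
    have hcon' : ∀ α : E, Algebra.trace k E α = 0 → α ∈ B := fun α h => by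
      by_contra h'
      exact hcon ⟨α, h, h'⟩
    have h1 : Nat.card (LinearMap.ker (Algebra.trace k E)) ≤ Nat.card {y // y ∈ B} :=
      Nat.card_le_card_of_injective
        (fun x : LinearMap.ker (Algebra.trace k E) =>
          (⟨x.1, hcon' x.1 (LinearMap.mem_ker.1 x.2)⟩ : {y // y ∈ B}))
        (fun x y h => Subtype.ext (congrArg (fun z : {y // y ∈ B} => z.1) h))
    rw [Nat.card_eq_fintype_card, Nat.card_eq_fintype_card, Fintype.card_coe,
      ← Nat.card_eq_fintype_card] at h1
    rw [hcard] at h1
    omega
  have hint : IsIntegral k α := Algebra.IsIntegral.isIntegral α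
  have hirr := minpoly.irreducible hint
  have hdvd : (minpoly k α).natDegree ∣ n := by
    have h0 := minpoly.degree_dvd hint
    rwa [hrk] at h0
  have hpos : 0 < (minpoly k α).natDegree := minpoly.natDegree_pos hint
  have hdeg : (minpoly k α).natDegree = n := by
    by_contra hne
    have hle : (minpoly k α).natDegree ≤ n / 2 := by
      obtain ⟨c, hc⟩ := hdvd
      rcases Nat.lt_or_ge c 2 with h | h
      · interval_cases c
        · omega
        · exact absurd (by omega) hne
      · rw [Nat.le_div_iff_mul_le (by norm_num)]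
        calc (minpoly k α).natDegree * 2 ≤ (minpoly k α).natDegree * c :=
              Nat.mul_le_mul_left _ h
          _ = n := hc.symm
    apply hαB
    rw [Finset.mem_biUnion]
    refine ⟨(minpoly k α).natDegree - 1, Finset.mem_range.2 (by omega), ?_⟩
    rw [Finset.mem_filter]
    refine ⟨Finset.mem_univ _, ?_⟩
    have h2 : (minpoly k α).natDegree - 1 + 1 = (minpoly k α).natDegree := by omega
    rw [h2]
    have h3 := (hirr.natDegree_dvd_iff_dvd_X_pow_card_pow_sub_X (n := (minpoly k α).natDegree)).1
      dvd_rfl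
    obtain ⟨c, hc⟩ := h3
    have h4 := congrArg (aeval α) hc
    rw [map_mul, minpoly.aeval, zero_mul, map_sub, map_pow, aeval_X, sub_eq_zero] at h4
    exact h4
  refine ⟨minpoly k α, minpoly.monic hint, hirr, hdeg, ?_⟩
  have htr := trace_eq_finrank_mul_minpoly_nextCoeff k α
  have hfr : Module.finrank k (IntermediateField.adjoin k {α}) = n := by
    rw [IntermediateField.adjoin.finrank hint, hdeg]
  have hone : Module.finrank (IntermediateField.adjoin k {α}) E = 1 := by
    have h5 := Module.finrank_mul_finrank k (IntermediateField.adjoin k {α}) E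
    rw [hfr, hrk] at h5
    exact Nat.eq_of_mul_eq_mul_left (by omega : 0 < n) (by omega)
  rw [hα, hone, Nat.cast_one, one_mul, eq_comm, neg_eq_zero] at htr
  rw [nextCoeff, if_neg (by omega), hdeg] at htr
  exact htr

end Pool.Agent.H25P
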