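import Pool.Agent.H25P.Top
import Pool.Agent.N301.JM.TOW
import Pool.Agent.N40.PQ.Gen

/-!
# The 2-Selmer group over the extension `M` of the number field `K`

The last part is after `N170/PF/Tw.lean`, `exists_field`, `irr_up` are those of `N874/JM/Fld.lean`
and `top_up` is that of `N922/PQ/Big5.lean`.
-/

set_option autoImplicit false
set_option linter.all false

open Polynomial IsDedekindDomain NumberField
open scoped Classical IntermediateField

namespace Pool.Agent.H25P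

open Pool.Agent.N874.PP (Ev Sq1 U0)
open Pool.Agent.N783.PQ (LocIm)
open Pool.Agent.N874.JM (LocF)
open Pool.Agent.N874.PM (Lies)
open Pool.Agent.N783.PF
open Pool.Agent.N922.PQ (Gen SplitMod)

/-! ### Fields -/

/-- `γ` generates `Ω` over `L`. -/
theorem top_up {K L M Ω : Type} [Field K] [Field L] [Field M] [Field Ω] [Algebra K L]
    [Algebra K M] [Algebra L Ω] [Algebra M Ω] [Algebra K Ω] [IsScalarTower K L Ω]
    [IsScalarTower K M Ω] {γ : M} (hγ : K⟮γ⟯ = ⊤) {θ : L} (hθ : M⟮algebraMap L Ω θ⟯ = ⊤) :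
    L⟮algebraMap M Ω γ⟯ = ⊤ := by
  let E : IntermediateField K Ω := (L⟮algebraMap M Ω γ⟯).restrictScalars K
  have h1 : ∀ x : M, algebraMap M Ω x ∈ E := by
    have h2 : K⟮γ⟯ ≤ E.comap (IsScalarTower.toAlgHom K M Ω) := by
      rw [IntermediateField.adjoin_simple_le_iff]
      exact IntermediateField.mem_adjoin_simple_self L (algebraMap M Ω γ)
    intro x
    have h3 : x ∈ K⟮γ⟯ := by rw [hγ]; trivial
    exact h2 h3
  let E' : IntermediateField M Ω :=
    { E.toSubfield with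
      algebraMap_mem' := h1 }
  have h4 : M⟮algebraMap L Ω θ⟯ ≤ E' := by
    rw [IntermediateField.adjoin_simple_le_iff]
    exact (L⟮algebraMap M Ω γ⟯).algebraMap_mem θ
  rw [hθ] at h4
  rw [eq_top_iff]
  intro x _
  exact h4 (show x ∈ (⊤ : IntermediateField M Ω) from trivial)

/-- Adjoining a zero of an irreducible polynomial. -/
theorem exists_field {M : Type} [Field M] {p : M[X]} (hp : Irreducible p) (hm : p.Monic) :
    ∃ (Ω : Type) (_ : Field Ω) (_ : Algebra M Ω) (t : Ω),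
      aeval t p = 0 ∧ Module.finrank M Ω = p.natDegree ∧ FiniteDimensional M Ω := by
  haveI hf : Fact (Irreducible p) := ⟨hp⟩
  haveI : FiniteDimensional M (AdjoinRoot p) := hm.finite_adjoinRoot
  have hr : Module.finrank M (AdjoinRoot p) = p.natDegree := by
    rw [(AdjoinRoot.powerBasis hm.ne_zero).finrank, AdjoinRoot.powerBasis_dim]
  have h0 : aeval (AdjoinRoot.root p) p = 0 := by
    rw [aeval_def]
    exact AdjoinRoot.eval₂_root _
  exact ⟨AdjoinRoot p, inferInstance, inferInstance, AdjoinRoot.root p, h0, hr, inferInstance⟩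

/-- A polynomial of odd degree which is irreducible over `K` is irreducible over an extension of
degree `2 ^ n`. -/
theorem irr_ext {K M : Type} [Field K] [Field M] [Algebra K M] [FiniteDimensional K M] {n : ℕ}
    (hM : Module.finrank K M = 2 ^ n) {f : K[X]} (h : Irreducible f) (hm : f.Monic)
    (hodd : Odd f.natDegree) : Irreducible (f.map (algebraMap K M)) := by
  have hnu : ¬ IsUnit (f.map (algebraMap K M)) := by
    intro hu
    have h1 := natDegree_eq_zero_of_isUnit hu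
    rw [hm.natDegree_map] at h1
    rw [h1] at hodd
    exact absurd hodd (by decide)
  obtain ⟨p, hpm, hpi, hpd⟩ := exists_monic_irreducible_factor _ hnu
  obtain ⟨Ω, instF, instA, t, ht, hr, hfin⟩ := exists_field hpi hpm
  letI : Algebra K Ω := ((algebraMap M Ω).comp (algebraMap K M)).toAlgebra
  haveI : IsScalarTower K M Ω := IsScalarTower.of_algebraMap_eq fun x => rfl
  haveI : FiniteDimensional K Ω := FiniteDimensional.trans K M Ω
  have h1 : aeval t f = 0 := by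
    obtain ⟨q, hq⟩ := hpd
    have h2 := congrArg (aeval t) hq
    rw [map_mul, ht, zero_mul, aeval_map_algebraMap] at h2
    exact h2
  have h2 : minpoly K t = f := (minpoly.eq_of_irreducible_of_monic h h1 hm).symm
  have h3 : (minpoly K t).natDegree ∣ Module.finrank K Ω :=
    minpoly.degree_dvd (Algebra.IsIntegral.isIntegral t)
  rw [h2, ← Module.finrank_mul_finrank K M Ω, hM, hr] at h3
  have h4 : f.natDegree ∣ p.natDegree := by
    refine Nat.Coprime.dvd_of_dvd_mul_left ?_ h3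
    exact (Nat.Coprime.pow_right n (Nat.coprime_two_right.2 hodd))
  have h5 : f.natDegree ≤ p.natDegree := Nat.le_of_dvd hpi.natDegree_pos h4
  have h6 : f.map (algebraMap K M) = p := by
    refine eq_of_monic_of_dvd_of_natDegree_le hpm (hm.map _) hpd ?_
    rw [hm.natDegree_map]
    exact h5
  rw [h6]
  exact hpi

section gen

variable {F L : Type} [Field F] [NumberField F] [Field L] [NumberField L] [Algebra F L] {g : ℕ}
  {f : (𝓞 F)[X]} {θ : L}

theorem gen_g1 (hG : IsGen g f θ) (x : L) : ∃ h : F[X], aeval θ h = x := by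
  obtain ⟨c, hc⟩ := hG.gen x
  refine ⟨∑ i, C (c i) * X ^ (i : ℕ), ?_⟩
  rw [hc, map_sum]
  refine Finset.sum_congr rfl fun i _ => ?_
  rw [map_mul, aeval_C, map_pow, aeval_X]

theorem gen_g2 (hG : IsGen g f θ) (hi : Irreducible (fF f)) (h : F[X]) (h0 : aeval θ h = 0) :
    fF f ∣ h := by
  rw [minpoly.eq_of_irreducible_of_monic hi hG.root (hG.mon.map _)]
  exact minpoly.dvd _ _ h0

theorem gen_top (hG : IsGen g f θ) : F⟮θ⟯ = ⊤ := by
  rw [eq_top_iff]
  intro x _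
  obtain ⟨c, hc⟩ := hG.gen x
  rw [hc]
  refine sum_mem fun i _ => mul_mem (F⟮θ⟯.algebraMap_mem _) (pow_mem ?_ _)
  exact IntermediateField.mem_adjoin_simple_self F θ

/-- The isomorphism with the ring of residue classes. -/
theorem gen_equiv {F' : F[X]} (hm : F'.Monic) (hd : F'.natDegree = 2 * g + 1)
    (hi : Irreducible F') {Θ : L} (hr : aeval Θ F' = 0) (hrk : Module.finrank F L = 2 * g + 1) :
    ∃ e : AdjoinRoot F' ≃ₐ[F] L, ∀ p : F[X], e (AdjoinRoot.mk F' p) = aeval Θ p := by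
  haveI hfact' : Fact (Irreducible F') := ⟨hi⟩
  obtain ⟨φ, hφ⟩ : ∃ φ : AdjoinRoot F' →ₐ[F] L,
      φ = AdjoinRoot.liftAlgHom F' (Algebra.ofId F _) Θ hr := ⟨_, rfl⟩
  have hφmk : ∀ p : F[X], φ (AdjoinRoot.mk F' p) = aeval Θ p := by
    intro p
    have h1 := AdjoinRoot.liftAlgHom_mk F' (Algebra.ofId F L) Θ hr p
    rw [Algebra.toRingHom_ofId, ← Polynomial.aeval_def] at h1
    rw [hφ]
    exact h1
  have hφinj : Function.Injective φ := φ.toRingHom.injective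
  haveI : FiniteDimensional F (AdjoinRoot F') := hm.finite_adjoinRoot
  haveI : FiniteDimensional F L := Module.finite_of_finrank_pos (by rw [hrk]; omega)
  have hrk' : Module.finrank F (AdjoinRoot F') = Module.finrank F L := by
    rw [hrk, (AdjoinRoot.powerBasis hm.ne_zero).finrank, AdjoinRoot.powerBasis_dim, hd]
  have hφsurj : Function.Surjective φ :=
    (LinearMap.injective_iff_surjective_of_finrank_eq_finrank (f := φ.toLinearMap) hrk').1 hφinj
  exact ⟨AlgEquiv.ofBijective φ ⟨hφinj, hφsurj⟩, hφmk⟩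

/-- The universal property of `L`. -/
theorem gen_map (hG : IsGen g f θ) (hi : Irreducible (fF f)) {Ω : Type} [Field Ω] [Algebra F Ω]
    {t : Ω} (ht : aeval t (fF f) = 0) : ∃ φ : L →ₐ[F] Ω, φ θ = t := by
  have hm : (fF f).Monic := hG.mon.map _
  have hd : (fF f).natDegree = 2 * g + 1 := by rw [hG.mon.natDegree_map, hG.deg]
  obtain ⟨e, he⟩ := gen_equiv hm hd hi hG.root hG.rank
  haveI hfact' : Fact (Irreducible (fF f)) := ⟨hi⟩
  refine ⟨(AdjoinRoot.liftAlgHom (fF f) (Algebra.ofId F Ω) t ht).comp e.symm.toAlgHom, ?_⟩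
  have h1 : e.symm θ = AdjoinRoot.mk (fF f) X := by
    rw [AlgEquiv.symm_apply_eq, he, aeval_X]
  have h2 := AdjoinRoot.liftAlgHom_mk (fF f) (Algebra.ofId F Ω) t ht X
  rw [Algebra.toRingHom_ofId, ← Polynomial.aeval_def, aeval_X] at h2
  show AdjoinRoot.liftAlgHom (fF f) (Algebra.ofId F Ω) t ht (e.symm θ) = t
  rw [h1]
  exact h2

/-- From elements of `L` to the Selmer group (after the last part of `N170/PF/Tw.lean`). -/
theorem selZero_of (hc : IsGen g f θ) {D : ℕ} (hD0 : D ≠ 0)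
    (hirrD : Irreducible (fF (f.scaleRoots (D : 𝓞 F))))
    (hsel : ∀ h : F[X], aeval ((D : L) * θ) h ≠ 0 →
      IsSquare (Algebra.norm F (aeval ((D : L) * θ) h)) →
      (∀ w : HeightOneSpectrum (𝓞 F), LocF (w.adicCompletion F) (fF (f.scaleRoots (D : 𝓞 F))) h) →
      (∀ σ : F →+* ℝ, LocIm ℝ ((fF (f.scaleRoots (D : 𝓞 F))).map σ) (h.map σ)) →
      IsSquare (aeval ((D : L) * θ) h)) : SelZero (f.scaleRoots (D : 𝓞 F)) := by
  have hm := hc.mon
  have hd := hc.deg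
  have hD0F : (D : F) ≠ 0 := Nat.cast_ne_zero.2 hD0
  have hmD : (f.scaleRoots (D : 𝓞 F)).Monic := (monic_scaleRoots_iff (D : 𝓞 F)).2 hm
  intro h hcop hnorm hloc hlocR
  have hsel := hsel h
  obtain ⟨F', hF'⟩ : ∃ F' : F[X], F' = fF (f.scaleRoots (D : 𝓞 F)) := ⟨_, rfl⟩
  obtain ⟨Θ, hΘ⟩ : ∃ Θ : L, Θ = (D : L) * θ := ⟨_, rfl⟩
  rw [← hΘ] at hsel
  have hroot : aeval Θ F' = 0 := by
    have e1 := scaleRoots_eval₂_mul (p := fF f) (algebraMap F L) θ (D : F)
    have e2 : eval₂ (algebraMap F L) θ (fF f) = 0 := by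
      rw [← aeval_def]
      exact hc.root
    rw [e2, mul_zero, map_natCast] at e1
    rw [hF', Pool.Agent.N78.PF.fF_scale hm, aeval_def, hΘ]
    exact e1
  have hmF' : F'.Monic := by
    rw [hF']
    exact hmD.map _
  have hdF' : F'.natDegree = 2 * g + 1 := by
    rw [hF', fF, hmD.natDegree_map, natDegree_scaleRoots, hd]
  rw [← hF'] at hirrD hcop hnorm ⊢
  obtain ⟨e, he⟩ := gen_equiv hmF' hdF' hirrD hroot hc.rank
  have hne : aeval Θ h ≠ 0 := by
    intro h0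
    obtain ⟨u, v, huv⟩ := hcop
    have := congrArg (aeval Θ) huv
    rw [map_add, map_mul, map_mul, hroot, h0, mul_zero, mul_zero, add_zero, map_one] at this
    exact zero_ne_one this
  have hnorm' : IsSquare (Algebra.norm F (aeval Θ h)) := by
    rw [← he, Algebra.norm_eq_of_algEquiv]
    exact hnorm
  obtain ⟨y, hy⟩ := hsel hne hnorm' hloc hlocR
  obtain ⟨z, rfl⟩ := e.surjective y
  obtain ⟨s, rfl⟩ := AdjoinRoot.mk_surjective z
  refine ⟨s, ?_⟩
  rw [← AdjoinRoot.mk_eq_zero]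
  apply e.injective
  rw [map_zero, he, map_sub, map_pow, sub_eq_zero]
  rw [he] at hy
  rw [pow_two]
  exact hy

end gen

theorem fM_scale {K : Type} [Field K] [NumberField K] (M : Type) [Field M] [NumberField M]
    [Algebra K M] {f : (𝓞 K)[X]} (hm : f.Monic) (D : ℕ) :
    fM M (f.scaleRoots (D : 𝓞 K)) = (fM M f).scaleRoots (D : 𝓞 M) := by
  unfold fM
  rw [map_scaleRoots]
  · rw [map_natCast]
  · rw [hm.leadingCoeff, map_one]
    exact one_ne_zero

/-- Irreducibility modulo a prime of a twist. -/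
theorem rd_scale {K : Type} [Field K] [NumberField K] {𝔭 : Ideal (𝓞 K)} (hp : 𝔭.IsMaximal)
    {f : (𝓞 K)[X]} (hm : f.Monic) {D : ℕ} (hD : (D : 𝓞 K) ∉ 𝔭) (h : Irreducible (rd 𝔭 f)) :
    Irreducible (rd 𝔭 (f.scaleRoots (D : 𝓞 K))) := by
  letI := Ideal.Quotient.field 𝔭
  have e : rd 𝔭 (f.scaleRoots (D : 𝓞 K)) = (rd 𝔭 f).scaleRoots (Ideal.Quotient.mk 𝔭 (D : 𝓞 K)) := by
    unfold rd
    rw [map_scaleRoots]
    rw [hm.leadingCoeff, map_one]
    exact one_ne_zero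
  rw [e]
  exact Pool.Agent.N170.PF.irr_scale (by rwa [Ne, Ideal.Quotient.eq_zero_iff_mem]) h

/-- The theorem on the Selmer group over `M`. -/
theorem sel (K M : Type) [Field K] [NumberField K] [Field M] [NumberField M] [Algebra K M]
    [IsGalois K M] {n : ℕ} (hM : Module.finrank K M = 2 ^ n)
    (hemb : ∀ w : HeightOneSpectrum (𝓞 K), (2 : 𝓞 K) ∈ w.asIdeal →
      Nonempty (M →ₐ[K] w.adicCompletion K))
    (hreal : ∀ ρ : K →+* ℝ, ∃ τ : M →+* ℝ, τ.comp (algebraMap K M) = ρ)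
    (g : ℕ) (hg : 1 ≤ g) : ∃ κ : ℕ,
    ∀ (B N W : ℕ) (f₁ : (𝓞 K)[X]) (S : Finset ℕ) (𝔮 : ℕ → Ideal (𝓞 K)) (r P : ℕ → (𝓞 K)[X])
      (f : (𝓞 K)[X]) (γ : M) (m : ℤ[X]) (δ : ℤ), κ ≤ W → GoodF g W f₁ →
      (∀ 𝔭 : Ideal (𝓞 K), 𝔭.IsPrime → (W : 𝓞 K) ∈ 𝔭 → Irreducible (rd 𝔭 f₁)) →
      Gen ℚ γ m δ → (∀ p : ℕ, p.Prime → (p : ℤ) ∣ δ → p ∣ W) →
      GoodS g W S 𝔮 r P → (∀ q ∈ S, SplitMod (q : ℤ) m) → Fam g B W f₁ S P f →
      2 ^ κ * B ≤ 4 ^ N → 1 ≤ B → ¬ LBad g N κ S 𝔮 P f →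
      ∃ J ⊆ S, Irreducible (fF (f.scaleRoots ((Dp J : ℕ) : 𝓞 K))) ∧
        Irreducible (fF (fM M (f.scaleRoots ((Dp J : ℕ) : 𝓞 K)))) ∧
        SelZero (fM M (f.scaleRoots ((Dp J : ℕ) : 𝓞 K))) ∧
        Min g (f.scaleRoots ((Dp J : ℕ) : 𝓞 K)) ∧
        ∀ 𝔭 : Ideal (𝓞 K), 𝔭.IsPrime → (W : 𝓞 K) ∈ 𝔭 →
          Irreducible (rd 𝔭 (f.scaleRoots ((Dp J : ℕ) : 𝓞 K))) := by
  obtain ⟨κ₁, hκ₁⟩ := core g K hg
  obtain ⟨κ₂, hκ₂⟩ := sqf g K hg
  refine ⟨max κ₁ κ₂, fun B N W f₁ S 𝔮 r P f γ m δ hW hf₁ hirr₁ hγ hδ hS hspl hF hBN hB hnb => ?_⟩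
  have hBN1 : 2 ^ κ₁ * B ≤ 4 ^ N :=
    (Nat.mul_le_mul_right _ (Nat.pow_le_pow_right (by norm_num) (le_max_left _ _))).trans hBN
  have hBN2 : 2 ^ κ₂ * B ≤ 4 ^ N :=
    (Nat.mul_le_mul_right _ (Nat.pow_le_pow_right (by norm_num) (le_max_right _ _))).trans hBN
  have hnb1 : ¬ LBad g N κ₁ S 𝔮 P f := fun h =>
    hnb (Pool.Agent.N170.PF.LBad.mono (le_max_left _ _) h)
  have hnb2 : ¬ LBad g N κ₂ S 𝔮 P f := fun h =>
    hnb (Pool.Agent.N170.PF.LBad.mono (le_max_right _ _) h)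
  have hm := hF.ht.mon
  have hd := hF.ht.deg
  have hirr : Irreducible (fF f) := Pool.Agent.N667.PF.irr K g W f₁ f hf₁ hF.one hm hd
  have hsq : SqF g f := hκ₂ B N W f₁ S 𝔮 r P f ((le_max_right _ _).trans hW) hf₁ hS hF hirr hBN2
    hB hnb2
  obtain ⟨L, _, _, _, θ, hc⟩ := Pool.Agent.N667.PF.gen K g f hm hd hirr
  obtain ⟨J, hJ, hcore⟩ := hκ₁ L f f₁ θ B N W S 𝔮 r P ((le_max_left _ _).trans hW) hc hsq hf₁ hS
    hF hBN1 hB hnb1
  refine ⟨J, hJ, ?_⟩
  -- the polynomial is irreducible modulo the primes over `W`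
  have hirrW : ∀ 𝔭 : Ideal (𝓞 K), 𝔭.IsPrime → (W : 𝓞 K) ∈ 𝔭 → Irreducible (rd 𝔭 f) := by
    intro 𝔭 hp hW
    rw [Pool.Agent.N78.PF.rd_eq (Pool.Agent.N78.PF.sp_le hW) hF.one]
    exact hirr₁ 𝔭 hp hW
  have hWpos := hf₁.pos
  have hcop : ∀ q ∈ S, ¬ q ∣ W := fun q hq hqW =>
    absurd (Nat.le_of_dvd hWpos hqW) (not_le.2 (hS q hq).2.1)
  have H : Setup g W f S J 𝔮 r P m δ :=
    ⟨hg, hsq, hS, hF.con, hJ, hf₁.two, hirrW, hγ.ne, hδ, hspl, hcop⟩
  -- the fields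
  have hirrM : Irreducible (fF (fM M f)) := by
    rw [fF_fM]
    refine irr_ext hM hirr (hm.map _) ?_
    rw [hm.natDegree_map, hd]
    exact odd_two_mul_add_one g
  have hmM : (fM M f).Monic := hm.map _
  have hdM : (fM M f).natDegree = 2 * g + 1 := by rw [fM, hm.natDegree_map, hd]
  obtain ⟨Ω, _, _, _, t, hcM⟩ := Pool.Agent.N667.PF.gen M g (fM M f) hmM hdM hirrM
  letI : Algebra K Ω := ((algebraMap M Ω).comp (algebraMap K M)).toAlgebra
  haveI : IsScalarTower K M Ω := IsScalarTower.of_algebraMap_eq fun x => rfl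
  have ht : aeval t (fF f) = 0 := by
    have h1 := hcM.root
    rw [fF_fM, aeval_map_algebraMap] at h1
    exact h1
  obtain ⟨φ, hφ⟩ := gen_map hc hirr ht
  letI : Algebra L Ω := φ.toRingHom.toAlgebra
  haveI : IsScalarTower K L Ω := IsScalarTower.of_algebraMap_eq fun x => (φ.commutes x).symm
  have hθt : algebraMap L Ω θ = t := hφ
  have hcM' : IsGen g (fM M f) (algebraMap L Ω θ) := by rw [hθt]; exact hcM
  have htopM : M⟮algebraMap L Ω θ⟯ = ⊤ := gen_top hcM'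
  have hKγ : K⟮γ⟯ = ⊤ := by
    rw [eq_top_iff]
    intro x _
    have h1 : x ∈ ℚ⟮γ⟯ := by rw [hγ.top]; trivial
    have h2 : ℚ⟮γ⟯ ≤ (K⟮γ⟯).restrictScalars ℚ := by
      rw [IntermediateField.adjoin_simple_le_iff]
      exact IntermediateField.mem_adjoin_simple_self K γ
    exact h2 h1
  have hMγ : Gen K γ m δ := ⟨hKγ, hγ.monic, hγ.root, hγ.ne, hγ.comb⟩
  have hΩγ : Gen L (algebraMap M Ω γ) m δ := by
    refine ⟨top_up (K := K) hKγ htopM, hγ.monic, ?_, hγ.ne, hγ.comb⟩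
    rw [aeval_algebraMap_apply, hγ.root, map_zero]
  have hD0 : Dp J ≠ 0 := by
    rw [Dp, Finset.prod_ne_zero_iff]
    exact fun q hq => (hS q (hJ hq)).1.ne_zero
  have hD0K : ((Dp J : ℕ) : K) ≠ 0 := Nat.cast_ne_zero.2 hD0
  have hmin := Pool.Agent.N547.PF.min g W K S J 𝔮 r P f hg hS hsq hm hd hF.con hJ
  have hirrD : Irreducible (fF (f.scaleRoots ((Dp J : ℕ) : 𝓞 K))) := by
    rw [Pool.Agent.N78.PF.fF_scale hm]
    exact Pool.Agent.N170.PF.irr_scale hD0K hirr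
  have hirrDM : Irreducible (fF (fM M (f.scaleRoots ((Dp J : ℕ) : 𝓞 K)))) := by
    have hmD : (f.scaleRoots ((Dp J : ℕ) : 𝓞 K)).Monic := (monic_scaleRoots_iff _).2 hm
    rw [fF_fM]
    refine irr_ext hM hirrD (hmD.map _) ?_
    rw [hmD.natDegree_map, natDegree_scaleRoots, hd]
    exact odd_two_mul_add_one g
  refine ⟨hirrD, hirrDM, ?_, hmin, ?_⟩
  · rw [fM_scale M hm] at hirrDM ⊢
    refine selZero_of hcM' hD0 hirrDM fun h hne hnorm hloc hlocR => ?_
    have g1 := gen_g1 hcM'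
    have g2 : ∀ h : M[X], aeval (algebraMap L Ω θ) h = 0 → (fF f).map (algebraMap K M) ∣ h := by
      intro h h0
      rw [← fF_fM]
      exact gen_g2 hcM' hirrM h h0
    have hcnd := top (Ω := Ω) H hMγ hΩγ hc hcM' g2 hloc hlocR hne
    have h2K : (2 : K) ≠ 0 := two_ne_zero
    refine Pool.Agent.N301.JM.tow' n K L M Ω h2K hM (by rw [hc.rank]; exact odd_two_mul_add_one g)
      (by rw [hcM'.rank, hc.rank])
      (fun x => Cnd f W J 𝔮 M (algebraMap L Ω θ) (algebraMap L Ω (aeval θ (derivative (fF f)))) x)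
      (fun x hx => cnd_sq g1 g2 hx)
      (fun x y hx hy a b => cnd_mul g1 g2
        (fun q hq => ⟨H.prm (hJ hq), H.q2 (hJ hq), H.qmem (hJ hq)⟩)
        (fun q hq 𝔓 h1 h2 => (odd_top H hΩγ hc (hJ hq) 𝔓 h1 h2).2) hx hy a b)
      (fun σ x a => cnd_sig rfl rfl σ a)
      (fun x hx a hN => base H hΩγ hc hcore hemb hreal hx a hN)
      _ hne hcnd hnorm
  · intro 𝔭 hp hW𝔭
    have hne : 𝔭 ≠ ⊥ := by
      rintro rfl
      rw [Ideal.mem_bot] at hW𝔭
      exact hWpos.ne' (by exact_mod_cast hW𝔭)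
    refine rd_scale (hp.isMaximal hne) hm ?_ (hirrW 𝔭 hp hW𝔭)
    intro hD
    rw [Dp, Nat.cast_prod] at hD
    obtain ⟨q, hq, hqm⟩ := (Ideal.IsPrime.prod_mem_iff).1 hD
    exact nat_coprime_mem (v := ⟨𝔭, hp, hne⟩) (H.cow (hJ hq)) hqm hW𝔭

end Pool.Agent.H25P
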