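import Pool.Agent.H25P.Root
import Pool.Agent.H25P.Sel
import Pool.Agent.H25P.Count
import Pool.Agent.N783.PF.Jac
import Pool.Agent.N40.PQ.Gen

/-!
# The final count
-/

set_option autoImplicit false
set_option linter.all false

open IsDedekindDomain NumberField Polynomial
open scoped Classical IntermediateField Pointwise

namespace Pool.Agent.H25P

open Pool.Agent.N922.PQ (Gen SplitMod)
open Pool.Agent.N783.PF

/-- The good polynomials. -/
structure GoodP (K M : Type) [Field K] [NumberField K] [Field M] [NumberField M] [Algebra K M]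
    (g : ℕ) (f : (𝓞 K)[X]) : Prop where
  mon : f.Monic
  deg : f.natDegree = 2 * g + 1
  irr : Irreducible (fF f)
  irrM : Irreducible (fF (fM M f))
  sel : SelZero (fM M f)
  min : Min g f
  root : ∀ w : HeightOneSpectrum (𝓞 M) → ℤ, Signs K (fM M f) w →
    ∀ k : ℕ, (-1 : ℤ) ^ (k * Nat.card (InfinitePlace M)) * ∏ᶠ v, w v = 1

theorem final (K M : Type) [Field K] [NumberField K] [Field M] [NumberField M] [Algebra K M]
    [IsGalois K M] {n : ℕ} (hM : Module.finrank K M = 2 ^ n)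
    (hcyc : ¬ IsCyclic (M ≃ₐ[K] M))
    (hemb : ∀ w : HeightOneSpectrum (𝓞 K), (2 : 𝓞 K) ∈ w.asIdeal →
      Nonempty (M →ₐ[K] w.adicCompletion K))
    (hinf : IsUnramifiedAtInfinitePlaces K M) (g : ℕ) (hg : 1 ≤ g) :
    ∃ c : ℝ, 0 < c ∧ ∃ B₀ : ℕ, ∀ B ≥ B₀,
    {f : (𝓞 K)[X] | Ht g B f}.Finite ∧ c * ({f : (𝓞 K)[X] | Ht g B f}.ncard : ℝ) ≤
      ({f : (𝓞 K)[X] | Ht g B f ∧ GoodP K M g f}.ncard : ℝ) := by
  obtain ⟨κ₀, hκ⟩ := sel K M hM hemb (real_ext hinf) g hg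
  obtain ⟨γ, m, δ, hG, -⟩ := Pool.Agent.N40.PQ.gen M
  set κ : ℕ := max κ₀ δ.natAbs with hκdef
  refine main2 g K hg (GoodP K M g) m hG.monic κ
    fun B N W f₁ S 𝔮 r P f hW hpW hf₁ hirr₁ hS hspl hF hBN hB hnb => ?_
  have hδ : ∀ p : ℕ, p.Prime → (p : ℤ) ∣ δ → p ∣ W := by
    intro p hp hpd
    apply hpW p hp
    have h1 : p ∣ δ.natAbs := Int.natCast_dvd.1 hpd
    exact (Nat.le_of_dvd (Nat.pos_of_ne_zero (Int.natAbs_ne_zero.2 hG.ne)) h1).trans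
      (le_max_right _ _)
  have hBN0 : 2 ^ κ₀ * B ≤ 4 ^ N :=
    (Nat.mul_le_mul_right _ (Nat.pow_le_pow_right (by norm_num) (le_max_left _ _))).trans hBN
  have hnb0 : ¬ LBad g N κ₀ S 𝔮 P f := fun h =>
    hnb (Pool.Agent.N170.PF.LBad.mono (le_max_left _ _) h)
  obtain ⟨J, hJ, h1, h2, h3, h4, h5⟩ := hκ B N W f₁ S 𝔮 r P f γ m δ
    ((le_max_left _ _).trans hW) hf₁ hirr₁ hG hδ hS hspl hF hBN0 hB hnb0
  have hmD : (f.scaleRoots ((Dp J : ℕ) : 𝓞 K)).Monic := (monic_scaleRoots_iff _).2 hF.ht.mon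
  refine ⟨J, hJ, hmD, ?_, h1, h2, h3, h4, fun w hw k => ?_⟩
  · rw [natDegree_scaleRoots, hF.ht.deg]
  · exact root_one hM hcyc hemb hinf hG hf₁.pos hδ hmD h2 h5 hw k

end Pool.Agent.H25P
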