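import Pool.Agent.H25P.Emb
import Pool.Agent.N415.PQ.SigLie
import Pool.Agent.N922.PQ.Stm

/-!
# Places of `M` which are stable under the Galois group of `M / K`, products of local signs

`act`, `pr` are after `N385/PX/PR.lean`.
-/

set_option autoImplicit false
set_option linter.all false

open IsDedekindDomain NumberField Polynomial
open scoped Classical IntermediateField Pointwise

namespace Pool.Agent.H25P

open Pool.Agent.N922.PQ (Gen)

section fix

variable {K M : Type} [Field K] [NumberField K] [Field M] [NumberField M] [Algebra K M]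

/-- The prime `v` is stable under the Galois group. -/
def Fixed (K : Type) [Field K] [NumberField K] {M : Type} [Field M] [NumberField M] [Algebra K M]
    (v : HeightOneSpectrum (𝓞 M)) : Prop :=
  ∀ (σ : M ≃ₐ[K] M) (x : M), v.valuation M (σ x) = v.valuation M x

theorem smul_coe (σ : M ≃ₐ[K] M) (x : 𝓞 M) : ((σ • x : 𝓞 M) : M) = σ (x : M) := rfl

/-- The Galois group is cyclic if there is a stable unramified prime. -/
theorem cyclic_of_fixed {v : HeightOneSpectrum (𝓞 M)} (hfix : Fixed K v) {γ : M} {m : ℤ[X]}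
    {δ : ℤ} (hG : Gen ℚ γ m δ) (hδ : (δ : 𝓞 M) ∉ v.asIdeal) : IsCyclic (M ≃ₐ[K] M) := by
  have hmem : ∀ (σ : M ≃ₐ[K] M) (x : 𝓞 M), σ • x ∈ v.asIdeal ↔ x ∈ v.asIdeal := by
    intro σ x
    rw [← HeightOneSpectrum.valuation_lt_one_iff_mem (K := M),
      ← HeightOneSpectrum.valuation_lt_one_iff_mem (K := M)]
    show v.valuation M (σ (x : M)) < 1 ↔ _
    rw [hfix]
  let P : Ideal (𝓞 M) := v.asIdeal
  haveI : P.IsPrime := v.isPrime
  haveI : P.IsMaximal := v.isMaximal
  let p : Ideal ℤ := P.under ℤ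
  haveI : P.LiesOver p := ⟨rfl⟩
  haveI : p.IsMaximal := Ideal.isMaximal_comap_of_isIntegral_of_isMaximal P
  letI : Field (ℤ ⧸ p) := Ideal.Quotient.field p
  letI : Field (𝓞 M ⧸ P) := Ideal.Quotient.field P
  haveI : Finite (𝓞 M ⧸ P) := Ideal.finiteQuotientOfFreeOfNeBot _ v.ne_bot
  have hstab : ∀ σ : M ≃ₐ[K] M, σ ∈ MulAction.stabilizer (M ≃ₐ[K] M) P := by
    intro σ
    rw [MulAction.mem_stabilizer_iff]
    ext x
    rw [Ideal.mem_pointwise_smul_iff_inv_smul_mem]
    exact hmem σ⁻¹ x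
  -- the integral generator
  obtain ⟨a, ha⟩ : ∃ a : 𝓞 M, (a : M) = γ := by
    have h1 : IsIntegral ℤ γ := ⟨m, hG.monic, hG.root⟩
    exact ⟨⟨γ, h1⟩, rfl⟩
  have hroot : ∀ σ : M ≃ₐ[K] M, (m.map (Int.castRingHom (𝓞 M))).eval (σ • a) = 0 := by
    intro σ
    apply NumberField.RingOfIntegers.ext
    rw [eval_map]
    have e1 : (algebraMap (𝓞 M) M) (eval₂ (Int.castRingHom (𝓞 M)) (σ • a) m) =
        eval₂ ((algebraMap (𝓞 M) M).comp (Int.castRingHom (𝓞 M))) (σ γ) m := by
      rw [hom_eval₂]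
      congr 1
      rw [← ha]
      rfl
    have e2 : eval₂ ((algebraMap (𝓞 M) M).comp (Int.castRingHom (𝓞 M))) (σ γ) m =
        σ (aeval γ m) := by
      rw [aeval_def]
      have h3 := Polynomial.hom_eval₂ m (algebraMap ℤ M) (σ : M →+* M) γ
      have h4 : (σ : M →+* M).comp (algebraMap ℤ M) =
          (algebraMap (𝓞 M) M).comp (Int.castRingHom (𝓞 M)) := RingHom.ext_int _ _
      rw [h4] at h3
      exact h3.symm
    exact e1.trans (e2.trans (by rw [hG.root, map_zero]; rfl))
  have hinj : Function.Injective (Ideal.Quotient.stabilizerHom P p (M ≃ₐ[K] M)) := by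
    rw [injective_iff_map_eq_one]
    intro σ hσ
    have h1 : ∀ b : 𝓞 M, (σ : M ≃ₐ[K] M) • b - b ∈ P := by
      intro b
      have h2 := DFunLike.congr_fun hσ (Ideal.Quotient.mk P b)
      rw [← Ideal.Quotient.eq]
      exact h2
    obtain ⟨σ, hσs⟩ := σ
    apply Subtype.ext
    show σ = 1
    by_contra hne
    have hab : σ • a ≠ a := by
      intro hc
      apply hne
      have h2 : σ γ = γ := by
        rw [← ha, ← smul_coe, hc]
      have h3 : ∀ x : M, σ x = x := by
        intro x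
        have hx : x ∈ ℚ⟮γ⟯ := by rw [hG.top]; trivial
        let E : IntermediateField ℚ M :=
          IntermediateField.fixedField (Subgroup.zpowers (σ.restrictScalars ℚ))
        have h4 : ℚ⟮γ⟯ ≤ E := by
          rw [IntermediateField.adjoin_simple_le_iff]
          rintro ⟨τ, hτ⟩
          have h5 : ∀ n : ℤ, ((σ.restrictScalars ℚ) ^ n) γ = γ := by
            have h6 : σ.restrictScalars ℚ ∈
                MulAction.stabilizer (M ≃ₐ[ℚ] M) γ := h2
            intro n
            exact Subgroup.zpow_mem _ h6 n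
          obtain ⟨n, rfl⟩ := Subgroup.mem_zpowers_iff.1 hτ
          exact h5 n
        have h5 := h4 hx
        exact h5 ⟨σ.restrictScalars ℚ, Subgroup.mem_zpowers _⟩
      ext x
      exact h3 x
    -- the derivative
    obtain ⟨q, hq⟩ : (X - C a) ∣ m.map (Int.castRingHom (𝓞 M)) := by
      rw [dvd_iff_isRoot]
      have := hroot 1
      rwa [one_smul] at this
    have h2 : q.eval (σ • a) = 0 := by
      have h3 := hroot σ
      rw [hq, eval_mul, eval_sub, eval_X, eval_C] at h3
      exact (mul_eq_zero.1 h3).resolve_left (sub_ne_zero.2 hab)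
    have h3 : (derivative (m.map (Int.castRingHom (𝓞 M)))).eval a = q.eval a := by
      rw [hq, derivative_mul, eval_add, eval_mul, eval_mul, derivative_sub, derivative_X,
        derivative_C, eval_sub, eval_sub, eval_X, eval_C, eval_one, eval_zero]
      ring
    have h4 : q.eval a ∈ P := by
      have h5 : (σ • a) - a ∣ q.eval (σ • a) - q.eval a := sub_dvd_eval_sub _ _ _
      rw [h2, zero_sub, dvd_neg] at h5
      exact P.mem_of_dvd h5 (h1 a)
    obtain ⟨u, w, huw⟩ := hG.comb
    apply hδ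
    have h5 := congrArg (fun t : ℤ[X] => (t.map (Int.castRingHom (𝓞 M))).eval a) huw
    simp only [Polynomial.map_add, Polynomial.map_mul, eval_add, eval_mul, map_C, eval_C,
      ← derivative_map] at h5
    have h6 := hroot 1
    rw [one_smul] at h6
    rw [h6, h3, mul_zero, zero_add] at h5
    have h7 : (Int.castRingHom (𝓞 M)) δ = (δ : 𝓞 M) := rfl
    rw [← h7, h5]
    exact Ideal.mul_mem_left _ _ h4
  haveI h8 : IsCyclic ((𝓞 M ⧸ P) ≃ₐ[ℤ ⧸ p] (𝓞 M ⧸ P)) := inferInstance
  haveI h9 : IsCyclic (MulAction.stabilizer (M ≃ₐ[K] M) P) := isCyclic_of_injective _ hinj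
  have h10 : MulAction.stabilizer (M ≃ₐ[K] M) P = ⊤ := by
    rw [eq_top_iff]
    exact fun σ _ => hstab σ
  rw [h10] at h9
  exact isCyclic_of_surjective (Subgroup.topEquiv (G := M ≃ₐ[K] M)) (Subgroup.topEquiv).surjective

/-- A stable prime over a prime of `K` which splits completely. -/
theorem card_of_fixed [IsGalois K M] {v : HeightOneSpectrum (𝓞 M)} (hfix : Fixed K v)
    {u : HeightOneSpectrum (𝓞 K)}
    (hu : ∀ a : 𝓞 K, a ∈ u.asIdeal → algebraMap (𝓞 K) (𝓞 M) a ∈ v.asIdeal)
    (φ : M →ₐ[K] u.adicCompletion K) : ∀ τ : M ≃ₐ[K] M, τ = 1 := by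
  -- the place of the embedding lies over `u`
  let v₀ : HeightOneSpectrum (𝓞 M) := Emb.pl φ.toRingHom
  have h1 : ∀ a : 𝓞 K, algebraMap (𝓞 K) (𝓞 M) a ∈ v₀.asIdeal ↔ a ∈ u.asIdeal := by
    intro a
    show algebraMap (𝓞 K) (𝓞 M) a ∈ Emb.pI φ.toRingHom ↔ _
    rw [Emb.mem_pI]
    have e : φ.toRingHom (algebraMap (𝓞 M) M (algebraMap (𝓞 K) (𝓞 M) a)) =
        algebraMap K (u.adicCompletion K) (a : K) := φ.commutes (a : K)
    rw [e, Emb.vx, HeightOneSpectrum.valuation_lt_one_iff_mem]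
  have h2 : ∀ a : 𝓞 K, algebraMap (𝓞 K) (𝓞 M) a ∈ v.asIdeal ↔ a ∈ u.asIdeal := by
    intro a
    refine ⟨fun h => ?_, hu a⟩
    have hmax : u.asIdeal.IsMaximal := u.isMaximal
    have h3 : u.asIdeal = v.asIdeal.comap (algebraMap (𝓞 K) (𝓞 M)) :=
      hmax.eq_of_le (Ideal.comap_ne_top _ v.isPrime.ne_top) fun b hb => hu b hb
    rw [h3]
    exact h
  -- transitivity
  haveI : Algebra.IsInvariant (𝓞 K) (𝓞 M) (M ≃ₐ[K] M) := by
    refine ⟨fun b hb => ?_⟩
    have h3 : ∀ σ : M ≃ₐ[K] M, σ (b : M) = (b : M) := by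
      intro σ
      rw [← smul_coe, hb]
    obtain ⟨x, hx⟩ := (IsGalois.mem_range_algebraMap_iff_fixed (F := K) (b : M)).2 h3
    have hxi : IsIntegral ℤ x := by
      have h4 : IsIntegral ℤ (algebraMap K M x) := by
        rw [hx]
        exact b.2
      exact (isIntegral_algebraMap_iff (algebraMap K M).injective).1 h4
    refine ⟨⟨x, hxi⟩, ?_⟩
    apply NumberField.RingOfIntegers.ext
    exact hx
  haveI : SMulCommClass (M ≃ₐ[K] M) (𝓞 K) (𝓞 M) := by
    refine ⟨fun σ a b => ?_⟩
    apply NumberField.RingOfIntegers.ext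
    rw [smul_coe, Algebra.smul_def, Algebra.smul_def]
    show σ (algebraMap K M (a : K) * (b : M)) = algebraMap K M (a : K) * (σ (b : M))
    rw [map_mul, σ.commutes]
  haveI := v.isPrime
  haveI := v₀.isPrime
  have h3 : v.asIdeal.under (𝓞 K) = v₀.asIdeal.under (𝓞 K) := by
    ext a
    rw [Ideal.under, Ideal.under, Ideal.mem_comap, Ideal.mem_comap, h1, h2]
  obtain ⟨σ, hσ⟩ := Algebra.IsInvariant.exists_smul_of_under_eq (𝓞 K) (𝓞 M) (M ≃ₐ[K] M)
    v.asIdeal v₀.asIdeal h3
  have h4 : v₀ = v := by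
    apply HeightOneSpectrum.ext
    rw [hσ]
    ext x
    rw [Ideal.mem_pointwise_smul_iff_inv_smul_mem,
      ← HeightOneSpectrum.valuation_lt_one_iff_mem (K := M),
      ← HeightOneSpectrum.valuation_lt_one_iff_mem (K := M)]
    show v.valuation M (σ⁻¹ (x : M)) < 1 ↔ _
    rw [hfix]
  intro τ
  refine Emb.eq_one φ τ fun x => ?_
  have h5 : Emb.pl φ.toRingHom = v := h4
  rw [h5]
  exact hfix τ x

/-! ### The product of the local signs -/

theorem val_inj {v v' : HeightOneSpectrum (𝓞 M)}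
    (h : ∀ x : M, v.valuation M x = v'.valuation M x) : v = v' := by
  apply HeightOneSpectrum.ext
  ext r
  rw [← v.valuation_lt_one_iff_mem (K := M) r, ← v'.valuation_lt_one_iff_mem (K := M) r, h]

theorem ex_act (σ : M ≃ₐ[K] M) (v : HeightOneSpectrum (𝓞 M)) :
    ∃ v' : HeightOneSpectrum (𝓞 M), ∀ x : M, v'.valuation M x = v.valuation M (σ x) := by
  obtain ⟨v', h, -⟩ := Pool.Agent.N415.PQ.sig M (𝓞 M) σ.toRingEquiv v
  exact ⟨v', h⟩

/-- the action of the Galois group on the primes -/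
noncomputable def act (σ : M ≃ₐ[K] M) (v : HeightOneSpectrum (𝓞 M)) : HeightOneSpectrum (𝓞 M) :=
  (ex_act σ⁻¹ v).choose

theorem act_spec (σ : M ≃ₐ[K] M) (v : HeightOneSpectrum (𝓞 M)) (x : M) :
    (act σ v).valuation M x = v.valuation M (σ⁻¹ x) := (ex_act σ⁻¹ v).choose_spec x

theorem act_one (v : HeightOneSpectrum (𝓞 M)) : act (1 : M ≃ₐ[K] M) v = v :=
  val_inj fun x => by rw [act_spec, inv_one, AlgEquiv.one_apply]

theorem act_mul (σ τ : M ≃ₐ[K] M) (v : HeightOneSpectrum (𝓞 M)) :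
    act (σ * τ) v = act σ (act τ v) :=
  val_inj fun x => by rw [act_spec, act_spec, act_spec, mul_inv_rev, AlgEquiv.mul_apply]

/-- The product of the signs which are constant on conjugate primes. -/
theorem pr [IsGalois K M] {n : ℕ} (hn : Module.finrank K M = 2 ^ n)
    (w : HeightOneSpectrum (𝓞 M) → ℤ) (hs : ∀ v, w v = 1 ∨ w v = -1) (hf : {v | w v ≠ 1}.Finite)
    (hc : ∀ (σ : M ≃ₐ[K] M) (v v' : HeightOneSpectrum (𝓞 M)),
      (∀ x : M, v'.valuation M x = v.valuation M (σ x)) → w v' = w v) :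
    ∏ᶠ v, w v = (-1) ^ ({v | w v = -1 ∧ Fixed K v}.ncard) := by
  have hN : {v | w v = -1} = {v | w v ≠ 1} := by
    ext v
    simp only [Set.mem_setOf_eq]
    rcases hs v with h | h <;> rw [h] <;> decide
  have hfin : {v | w v = -1}.Finite := by rw [hN]; exact hf
  have hwa : ∀ (σ : M ≃ₐ[K] M) (v : HeightOneSpectrum (𝓞 M)), w (act σ v) = w v := fun σ v =>
    hc σ⁻¹ v (act σ v) (act_spec σ v)
  -- the action on the primes with `w v = -1`
  let N : Type := {v : HeightOneSpectrum (𝓞 M) // w v = -1}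
  haveI : Finite N := hfin.to_subtype
  letI ma : MulAction (M ≃ₐ[K] M) N :=
    { smul := fun σ v => ⟨act σ v.1, (hwa σ v.1).trans v.2⟩
      one_smul := fun v => Subtype.ext (act_one v.1)
      mul_smul := fun σ τ v => Subtype.ext (act_mul σ τ v.1) }
  have hG : IsPGroup 2 (M ≃ₐ[K] M) := by
    apply IsPGroup.of_card (n := n)
    rw [← hn]
    exact IsGalois.card_aut_eq_finrank K M
  haveI : Fact (Nat.Prime 2) := ⟨Nat.prime_two⟩
  have hmod := hG.card_modEq_card_fixedPoints (α := N)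
  have hfix : Nat.card (MulAction.fixedPoints (M ≃ₐ[K] M) N) =
      {v | w v = -1 ∧ Fixed K v}.ncard := by
    rw [← Nat.card_coe_set_eq]
    refine Nat.card_congr
      { toFun := fun v => ⟨v.1.1, v.1.2, fun σ x => ?_⟩
        invFun := fun v => ⟨⟨v.1, v.2.1⟩, fun σ => ?_⟩
        left_inv := fun v => rfl
        right_inv := fun v => rfl }
    · have h1 : σ⁻¹ • v.1 = v.1 := v.2 σ⁻¹
      have h2 : act σ⁻¹ v.1.1 = v.1.1 := congrArg Subtype.val h1
      have h3 := act_spec σ⁻¹ v.1.1 x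
      rw [h2, inv_inv] at h3
      exact h3.symm
    · refine Subtype.ext (val_inj fun x => ?_)
      exact (act_spec σ v.1 x).trans (v.2.2 σ⁻¹ x)
  have hcard : Nat.card N = {v | w v = -1}.ncard := Nat.card_coe_set_eq _
  rw [hfix, hcard] at hmod
  have hprod : ∏ᶠ v, w v = (-1) ^ ({v | w v = -1}.ncard) := by
    rw [finprod_eq_prod_of_mulSupport_subset (s := hfin.toFinset) w ?_, Set.ncard_eq_toFinset_card _ hfin,
      Finset.prod_congr rfl (g := fun _ => (-1 : ℤ)) ?_, Finset.prod_const]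
    · intro v hv
      exact hfin.mem_toFinset.1 hv
    · intro v hv
      rw [Set.Finite.coe_toFinset, hN]
      exact hv
  rw [hprod]
  rcases Nat.even_or_odd ({v | w v = -1}.ncard) with h | h
  · have h' : Even ({v | w v = -1 ∧ Fixed K v}.ncard) := by
      rw [Nat.even_iff] at h ⊢
      exact Eq.trans hmod.symm h
    rw [h.neg_one_pow, h'.neg_one_pow]
  · have h' : Odd ({v | w v = -1 ∧ Fixed K v}.ncard) := by
      rw [Nat.odd_iff] at h ⊢
      exact Eq.trans hmod.symm h
    rw [h.neg_one_pow, h'.neg_one_pow]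

/-- The number of infinite places is even. -/
theorem even_inf [IsGalois K M] {n : ℕ} (hn : Module.finrank K M = 2 ^ n) (h1 : 1 ≤ n)
    (hu : IsUnramifiedAtInfinitePlaces K M) : Even (Nat.card (InfinitePlace M)) := by
  have h2 := IsUnramifiedAtInfinitePlaces.card_infinitePlace K M
  rw [Nat.card_eq_fintype_card, h2, hn]
  obtain ⟨k, rfl⟩ : ∃ k, n = k + 1 := ⟨n - 1, by omega⟩
  rw [pow_succ]
  exact ⟨Fintype.card (InfinitePlace K) * 2 ^ k, by ring⟩

/-- Real embeddings extend. -/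
theorem real_ext (hu : IsUnramifiedAtInfinitePlaces K M) (ρ : K →+* ℝ) :
    ∃ τ : M →+* ℝ, τ.comp (algebraMap K M) = ρ := by
  let φ : K →+* ℂ := Complex.ofRealHom.comp ρ
  have hφ : ComplexEmbedding.IsReal φ := by
    rw [ComplexEmbedding.isReal_iff]
    ext x
    exact Complex.conj_ofReal _
  have hφr : (InfinitePlace.mk φ).IsReal := ⟨φ, hφ, rfl⟩
  obtain ⟨w, hw⟩ : ∃ w : InfinitePlace M, w.comap (algebraMap K M) = InfinitePlace.mk φ :=
    InfinitePlace.comap_surjective (K := M) (InfinitePlace.mk φ)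
  have hwr : w.IsReal := by
    have h1 : InfinitePlace.IsUnramified K w := hu.isUnramified w
    rw [InfinitePlace.isUnramified_iff] at h1
    rcases h1 with h1 | h1
    · exact h1
    · exfalso
      rw [hw] at h1
      exact (InfinitePlace.not_isReal_iff_isComplex.2 h1) hφr
  refine ⟨InfinitePlace.embedding_of_isReal hwr, ?_⟩
  have h1 : InfinitePlace.mk (w.embedding.comp (algebraMap K M)) = InfinitePlace.mk φ := by
    rw [← hw, ← InfinitePlace.comap_mk, InfinitePlace.mk_embedding]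
  rw [InfinitePlace.mk_eq_iff] at h1
  have h2 : w.embedding.comp (algebraMap K M) = φ := by
    rcases h1 with h1 | h1
    · exact h1
    · have h3 := congrArg ComplexEmbedding.conjugate h1
      have h4 : ComplexEmbedding.conjugate (ComplexEmbedding.conjugate
          (w.embedding.comp (algebraMap K M))) = w.embedding.comp (algebraMap K M) := by
        ext x
        simp [ComplexEmbedding.conjugate_coe_eq]
      rw [h4] at h3
      rw [h3]
      exact hφ
  ext x
  have h3 := RingHom.congr_fun h2 x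
  apply Complex.ofReal_injective
  show ((InfinitePlace.embedding_of_isReal hwr (algebraMap K M x) : ℝ) : ℂ) = ((ρ x : ℝ) : ℂ)
  rw [InfinitePlace.embedding_of_isReal_apply]
  exact h3

end fix

end Pool.Agent.H25P
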